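import Pool.Agent.Helper64K9.Benzel.Cover

/-!
# Benzels: the centre is tileable (MP_59b97c_co)
-/

set_option autoImplicit false

namespace Helper64K9.Benzel

theorem dis01 {A p b r n hi X Y Z : ℤ} (H : Hyp' A p b r n hi)
    (hs : X + Y + Z = 3 * A) (hm : (X - Y) % 3 = 2) (q1 : C0 A p b r hi X Y Z)
    (q2 : C1 A p b r hi X Y Z) : False := by
  obtain ⟨⟨h1, h2, h3, H⟩, h0⟩ := H
  unfold C0 Box at q1
  unfold C1 Box at q2
  rcases H with ⟨h4, h5, h6⟩ | ⟨h4, h5, h6⟩ <;> omega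

theorem dis02 {A p b r n hi X Y Z : ℤ} (H : Hyp' A p b r n hi)
    (hs : X + Y + Z = 3 * A) (hm : (X - Y) % 3 = 2) (q1 : C0 A p b r hi X Y Z)
    (q2 : C2 A p b r n hi X Y Z) : False := by
  obtain ⟨⟨h1, h2, h3, H⟩, h0⟩ := H
  unfold C0 Box at q1
  unfold C2 Box at q2
  rcases H with ⟨h4, h5, h6⟩ | ⟨h4, h5, h6⟩ <;> omega

theorem dis03 {A p b r n hi X Y Z : ℤ} (H : Hyp' A p b r n hi)
    (hs : X + Y + Z = 3 * A) (hm : (X - Y) % 3 = 2) (q1 : C0 A p b r hi X Y Z)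
    (q2 : C3 A p b r n X Y Z) : False := by
  obtain ⟨⟨h1, h2, h3, H⟩, h0⟩ := H
  unfold C0 Box at q1
  unfold C3 Box at q2
  rcases H with ⟨h4, h5, h6⟩ | ⟨h4, h5, h6⟩ <;> omega

theorem dis04 {A p b r n hi X Y Z : ℤ} (H : Hyp' A p b r n hi)
    (hs : X + Y + Z = 3 * A) (hm : (X - Y) % 3 = 2) (q1 : C0 A p b r hi X Y Z)
    (q2 : C4 A p b r n X Y Z) : False := by
  obtain ⟨⟨h1, h2, h3, H⟩, h0⟩ := H
  unfold C0 Box at q1
  unfold C4 Box at q2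
  rcases H with ⟨h4, h5, h6⟩ | ⟨h4, h5, h6⟩ <;> omega

theorem dis05 {A p b r n hi X Y Z : ℤ} (H : Hyp' A p b r n hi)
    (hs : X + Y + Z = 3 * A) (hm : (X - Y) % 3 = 2) (q1 : C0 A p b r hi X Y Z)
    (q2 : C5 A p b r n X Y Z) : False := by
  obtain ⟨⟨h1, h2, h3, H⟩, h0⟩ := H
  unfold C0 Box at q1
  unfold C5 Box at q2
  rcases H with ⟨h4, h5, h6⟩ | ⟨h4, h5, h6⟩ <;> omega

theorem dis06 {A p b r n hi X Y Z : ℤ} (H : Hyp' A p b r n hi)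
    (hs : X + Y + Z = 3 * A) (hm : (X - Y) % 3 = 2) (q1 : C0 A p b r hi X Y Z)
    (q2 : C6 A p b r n X Y Z) : False := by
  obtain ⟨⟨h1, h2, h3, H⟩, h0⟩ := H
  unfold C0 Box at q1
  unfold C6 Box at q2
  rcases H with ⟨h4, h5, h6⟩ | ⟨h4, h5, h6⟩ <;> omega

theorem dis07 {A p b r n hi X Y Z : ℤ} (H : Hyp' A p b r n hi)
    (hs : X + Y + Z = 3 * A) (hm : (X - Y) % 3 = 2) (q1 : C0 A p b r hi X Y Z)
    (q2 : C7 A p b r n X Y Z) : False := by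
  obtain ⟨⟨h1, h2, h3, H⟩, h0⟩ := H
  unfold C0 Box at q1
  unfold C7 Box at q2
  rcases H with ⟨h4, h5, h6⟩ | ⟨h4, h5, h6⟩ <;> omega

theorem dis08 {A p b r n hi X Y Z : ℤ} (H : Hyp' A p b r n hi)
    (hs : X + Y + Z = 3 * A) (hm : (X - Y) % 3 = 2) (q1 : C0 A p b r hi X Y Z)
    (q2 : C8 A p b r n X Y Z) : False := by
  obtain ⟨⟨h1, h2, h3, H⟩, h0⟩ := H
  unfold C0 Box at q1
  unfold C8 Box at q2
  rcases H with ⟨h4, h5, h6⟩ | ⟨h4, h5, h6⟩ <;> omega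

theorem dis09 {A p b r n hi X Y Z : ℤ} (H : Hyp' A p b r n hi)
    (hs : X + Y + Z = 3 * A) (hm : (X - Y) % 3 = 2) (q1 : C0 A p b r hi X Y Z)
    (q2 : C9 A p b r n X Y Z) : False := by
  obtain ⟨⟨h1, h2, h3, H⟩, h0⟩ := H
  unfold C0 Box at q1
  unfold C9 Box at q2
  rcases H with ⟨h4, h5, h6⟩ | ⟨h4, h5, h6⟩ <;> omega

theorem dis12 {A p b r n hi X Y Z : ℤ} (H : Hyp' A p b r n hi)
    (hs : X + Y + Z = 3 * A) (hm : (X - Y) % 3 = 2) (q1 : C1 A p b r hi X Y Z)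
    (q2 : C2 A p b r n hi X Y Z) : False := by
  obtain ⟨⟨h1, h2, h3, H⟩, h0⟩ := H
  unfold C1 Box at q1
  unfold C2 Box at q2
  rcases H with ⟨h4, h5, h6⟩ | ⟨h4, h5, h6⟩ <;> omega

theorem dis13 {A p b r n hi X Y Z : ℤ} (H : Hyp' A p b r n hi)
    (hs : X + Y + Z = 3 * A) (hm : (X - Y) % 3 = 2) (q1 : C1 A p b r hi X Y Z)
    (q2 : C3 A p b r n X Y Z) : False := by
  obtain ⟨⟨h1, h2, h3, H⟩, h0⟩ := H
  unfold C1 Box at q1
  unfold C3 Box at q2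
  rcases H with ⟨h4, h5, h6⟩ | ⟨h4, h5, h6⟩ <;> omega

theorem dis14 {A p b r n hi X Y Z : ℤ} (H : Hyp' A p b r n hi)
    (hs : X + Y + Z = 3 * A) (hm : (X - Y) % 3 = 2) (q1 : C1 A p b r hi X Y Z)
    (q2 : C4 A p b r n X Y Z) : False := by
  obtain ⟨⟨h1, h2, h3, H⟩, h0⟩ := H
  unfold C1 Box at q1
  unfold C4 Box at q2
  rcases H with ⟨h4, h5, h6⟩ | ⟨h4, h5, h6⟩ <;> omega

theorem dis15 {A p b r n hi X Y Z : ℤ} (H : Hyp' A p b r n hi)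
    (hs : X + Y + Z = 3 * A) (hm : (X - Y) % 3 = 2) (q1 : C1 A p b r hi X Y Z)
    (q2 : C5 A p b r n X Y Z) : False := by
  obtain ⟨⟨h1, h2, h3, H⟩, h0⟩ := H
  unfold C1 Box at q1
  unfold C5 Box at q2
  rcases H with ⟨h4, h5, h6⟩ | ⟨h4, h5, h6⟩ <;> omega

theorem dis16 {A p b r n hi X Y Z : ℤ} (H : Hyp' A p b r n hi)
    (hs : X + Y + Z = 3 * A) (hm : (X - Y) % 3 = 2) (q1 : C1 A p b r hi X Y Z)
    (q2 : C6 A p b r n X Y Z) : False := by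
  obtain ⟨⟨h1, h2, h3, H⟩, h0⟩ := H
  unfold C1 Box at q1
  unfold C6 Box at q2
  rcases H with ⟨h4, h5, h6⟩ | ⟨h4, h5, h6⟩ <;> omega

theorem dis17 {A p b r n hi X Y Z : ℤ} (H : Hyp' A p b r n hi)
    (hs : X + Y + Z = 3 * A) (hm : (X - Y) % 3 = 2) (q1 : C1 A p b r hi X Y Z)
    (q2 : C7 A p b r n X Y Z) : False := by
  obtain ⟨⟨h1, h2, h3, H⟩, h0⟩ := H
  unfold C1 Box at q1
  unfold C7 Box at q2
  rcases H with ⟨h4, h5, h6⟩ | ⟨h4, h5, h6⟩ <;> omega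

theorem dis18 {A p b r n hi X Y Z : ℤ} (H : Hyp' A p b r n hi)
    (hs : X + Y + Z = 3 * A) (hm : (X - Y) % 3 = 2) (q1 : C1 A p b r hi X Y Z)
    (q2 : C8 A p b r n X Y Z) : False := by
  obtain ⟨⟨h1, h2, h3, H⟩, h0⟩ := H
  unfold C1 Box at q1
  unfold C8 Box at q2
  rcases H with ⟨h4, h5, h6⟩ | ⟨h4, h5, h6⟩ <;> omega

theorem dis19 {A p b r n hi X Y Z : ℤ} (H : Hyp' A p b r n hi)
    (hs : X + Y + Z = 3 * A) (hm : (X - Y) % 3 = 2) (q1 : C1 A p b r hi X Y Z)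
    (q2 : C9 A p b r n X Y Z) : False := by
  obtain ⟨⟨h1, h2, h3, H⟩, h0⟩ := H
  unfold C1 Box at q1
  unfold C9 Box at q2
  rcases H with ⟨h4, h5, h6⟩ | ⟨h4, h5, h6⟩ <;> omega

theorem dis23 {A p b r n hi X Y Z : ℤ} (H : Hyp' A p b r n hi)
    (hs : X + Y + Z = 3 * A) (hm : (X - Y) % 3 = 2) (q1 : C2 A p b r n hi X Y Z)
    (q2 : C3 A p b r n X Y Z) : False := by
  obtain ⟨⟨h1, h2, h3, H⟩, h0⟩ := H
  unfold C2 Box at q1
  unfold C3 Box at q2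
  rcases H with ⟨h4, h5, h6⟩ | ⟨h4, h5, h6⟩ <;> omega

theorem dis24 {A p b r n hi X Y Z : ℤ} (H : Hyp' A p b r n hi)
    (hs : X + Y + Z = 3 * A) (hm : (X - Y) % 3 = 2) (q1 : C2 A p b r n hi X Y Z)
    (q2 : C4 A p b r n X Y Z) : False := by
  obtain ⟨⟨h1, h2, h3, H⟩, h0⟩ := H
  unfold C2 Box at q1
  unfold C4 Box at q2
  rcases H with ⟨h4, h5, h6⟩ | ⟨h4, h5, h6⟩ <;> omega

theorem dis25 {A p b r n hi X Y Z : ℤ} (H : Hyp' A p b r n hi)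
    (hs : X + Y + Z = 3 * A) (hm : (X - Y) % 3 = 2) (q1 : C2 A p b r n hi X Y Z)
    (q2 : C5 A p b r n X Y Z) : False := by
  obtain ⟨⟨h1, h2, h3, H⟩, h0⟩ := H
  unfold C2 Box at q1
  unfold C5 Box at q2
  rcases H with ⟨h4, h5, h6⟩ | ⟨h4, h5, h6⟩ <;> omega

theorem dis26 {A p b r n hi X Y Z : ℤ} (H : Hyp' A p b r n hi)
    (hs : X + Y + Z = 3 * A) (hm : (X - Y) % 3 = 2) (q1 : C2 A p b r n hi X Y Z)
    (q2 : C6 A p b r n X Y Z) : False := by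
  obtain ⟨⟨h1, h2, h3, H⟩, h0⟩ := H
  unfold C2 Box at q1
  unfold C6 Box at q2
  rcases H with ⟨h4, h5, h6⟩ | ⟨h4, h5, h6⟩ <;> omega

theorem dis27 {A p b r n hi X Y Z : ℤ} (H : Hyp' A p b r n hi)
    (hs : X + Y + Z = 3 * A) (hm : (X - Y) % 3 = 2) (q1 : C2 A p b r n hi X Y Z)
    (q2 : C7 A p b r n X Y Z) : False := by
  obtain ⟨⟨h1, h2, h3, H⟩, h0⟩ := H
  unfold C2 Box at q1
  unfold C7 Box at q2
  rcases H with ⟨h4, h5, h6⟩ | ⟨h4, h5, h6⟩ <;> omega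

theorem dis28 {A p b r n hi X Y Z : ℤ} (H : Hyp' A p b r n hi)
    (hs : X + Y + Z = 3 * A) (hm : (X - Y) % 3 = 2) (q1 : C2 A p b r n hi X Y Z)
    (q2 : C8 A p b r n X Y Z) : False := by
  obtain ⟨⟨h1, h2, h3, H⟩, h0⟩ := H
  unfold C2 Box at q1
  unfold C8 Box at q2
  rcases H with ⟨h4, h5, h6⟩ | ⟨h4, h5, h6⟩ <;> omega

theorem dis29 {A p b r n hi X Y Z : ℤ} (H : Hyp' A p b r n hi)
    (hs : X + Y + Z = 3 * A) (hm : (X - Y) % 3 = 2) (q1 : C2 A p b r n hi X Y Z)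
    (q2 : C9 A p b r n X Y Z) : False := by
  obtain ⟨⟨h1, h2, h3, H⟩, h0⟩ := H
  unfold C2 Box at q1
  unfold C9 Box at q2
  rcases H with ⟨h4, h5, h6⟩ | ⟨h4, h5, h6⟩ <;> omega

theorem dis34 {A p b r n hi X Y Z : ℤ} (H : Hyp' A p b r n hi)
    (hs : X + Y + Z = 3 * A) (hm : (X - Y) % 3 = 2) (q1 : C3 A p b r n X Y Z)
    (q2 : C4 A p b r n X Y Z) : False := by
  obtain ⟨⟨h1, h2, h3, H⟩, h0⟩ := H
  unfold C3 Box at q1
  unfold C4 Box at q2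
  rcases H with ⟨h4, h5, h6⟩ | ⟨h4, h5, h6⟩ <;> omega

theorem dis35 {A p b r n hi X Y Z : ℤ} (H : Hyp' A p b r n hi)
    (hs : X + Y + Z = 3 * A) (hm : (X - Y) % 3 = 2) (q1 : C3 A p b r n X Y Z)
    (q2 : C5 A p b r n X Y Z) : False := by
  obtain ⟨⟨h1, h2, h3, H⟩, h0⟩ := H
  unfold C3 Box at q1
  unfold C5 Box at q2
  rcases H with ⟨h4, h5, h6⟩ | ⟨h4, h5, h6⟩ <;> omega

theorem dis36 {A p b r n hi X Y Z : ℤ} (H : Hyp' A p b r n hi)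
    (hs : X + Y + Z = 3 * A) (hm : (X - Y) % 3 = 2) (q1 : C3 A p b r n X Y Z)
    (q2 : C6 A p b r n X Y Z) : False := by
  obtain ⟨⟨h1, h2, h3, H⟩, h0⟩ := H
  unfold C3 Box at q1
  unfold C6 Box at q2
  rcases H with ⟨h4, h5, h6⟩ | ⟨h4, h5, h6⟩ <;> omega

theorem dis37 {A p b r n hi X Y Z : ℤ} (H : Hyp' A p b r n hi)
    (hs : X + Y + Z = 3 * A) (hm : (X - Y) % 3 = 2) (q1 : C3 A p b r n X Y Z)
    (q2 : C7 A p b r n X Y Z) : False := by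
  obtain ⟨⟨h1, h2, h3, H⟩, h0⟩ := H
  unfold C3 Box at q1
  unfold C7 Box at q2
  rcases H with ⟨h4, h5, h6⟩ | ⟨h4, h5, h6⟩ <;> omega

theorem dis38 {A p b r n hi X Y Z : ℤ} (H : Hyp' A p b r n hi)
    (hs : X + Y + Z = 3 * A) (hm : (X - Y) % 3 = 2) (q1 : C3 A p b r n X Y Z)
    (q2 : C8 A p b r n X Y Z) : False := by
  obtain ⟨⟨h1, h2, h3, H⟩, h0⟩ := H
  unfold C3 Box at q1
  unfold C8 Box at q2
  rcases H with ⟨h4, h5, h6⟩ | ⟨h4, h5, h6⟩ <;> omega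

theorem dis39 {A p b r n hi X Y Z : ℤ} (H : Hyp' A p b r n hi)
    (hs : X + Y + Z = 3 * A) (hm : (X - Y) % 3 = 2) (q1 : C3 A p b r n X Y Z)
    (q2 : C9 A p b r n X Y Z) : False := by
  obtain ⟨⟨h1, h2, h3, H⟩, h0⟩ := H
  unfold C3 Box at q1
  unfold C9 Box at q2
  rcases H with ⟨h4, h5, h6⟩ | ⟨h4, h5, h6⟩ <;> omega

theorem dis45 {A p b r n hi X Y Z : ℤ} (H : Hyp' A p b r n hi)
    (hs : X + Y + Z = 3 * A) (hm : (X - Y) % 3 = 2) (q1 : C4 A p b r n X Y Z)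
    (q2 : C5 A p b r n X Y Z) : False := by
  obtain ⟨⟨h1, h2, h3, H⟩, h0⟩ := H
  unfold C4 Box at q1
  unfold C5 Box at q2
  rcases H with ⟨h4, h5, h6⟩ | ⟨h4, h5, h6⟩ <;> omega

theorem dis46 {A p b r n hi X Y Z : ℤ} (H : Hyp' A p b r n hi)
    (hs : X + Y + Z = 3 * A) (hm : (X - Y) % 3 = 2) (q1 : C4 A p b r n X Y Z)
    (q2 : C6 A p b r n X Y Z) : False := by
  obtain ⟨⟨h1, h2, h3, H⟩, h0⟩ := H
  unfold C4 Box at q1
  unfold C6 Box at q2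
  rcases H with ⟨h4, h5, h6⟩ | ⟨h4, h5, h6⟩ <;> omega

theorem dis47 {A p b r n hi X Y Z : ℤ} (H : Hyp' A p b r n hi)
    (hs : X + Y + Z = 3 * A) (hm : (X - Y) % 3 = 2) (q1 : C4 A p b r n X Y Z)
    (q2 : C7 A p b r n X Y Z) : False := by
  obtain ⟨⟨h1, h2, h3, H⟩, h0⟩ := H
  unfold C4 Box at q1
  unfold C7 Box at q2
  rcases H with ⟨h4, h5, h6⟩ | ⟨h4, h5, h6⟩ <;> omega

theorem dis48 {A p b r n hi X Y Z : ℤ} (H : Hyp' A p b r n hi)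
    (hs : X + Y + Z = 3 * A) (hm : (X - Y) % 3 = 2) (q1 : C4 A p b r n X Y Z)
    (q2 : C8 A p b r n X Y Z) : False := by
  obtain ⟨⟨h1, h2, h3, H⟩, h0⟩ := H
  unfold C4 Box at q1
  unfold C8 Box at q2
  rcases H with ⟨h4, h5, h6⟩ | ⟨h4, h5, h6⟩ <;> omega

theorem dis49 {A p b r n hi X Y Z : ℤ} (H : Hyp' A p b r n hi)
    (hs : X + Y + Z = 3 * A) (hm : (X - Y) % 3 = 2) (q1 : C4 A p b r n X Y Z)
    (q2 : C9 A p b r n X Y Z) : False := by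
  obtain ⟨⟨h1, h2, h3, H⟩, h0⟩ := H
  unfold C4 Box at q1
  unfold C9 Box at q2
  rcases H with ⟨h4, h5, h6⟩ | ⟨h4, h5, h6⟩ <;> omega

theorem dis56 {A p b r n hi X Y Z : ℤ} (H : Hyp' A p b r n hi)
    (hs : X + Y + Z = 3 * A) (hm : (X - Y) % 3 = 2) (q1 : C5 A p b r n X Y Z)
    (q2 : C6 A p b r n X Y Z) : False := by
  obtain ⟨⟨h1, h2, h3, H⟩, h0⟩ := H
  unfold C5 Box at q1
  unfold C6 Box at q2
  rcases H with ⟨h4, h5, h6⟩ | ⟨h4, h5, h6⟩ <;> omega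

theorem dis57 {A p b r n hi X Y Z : ℤ} (H : Hyp' A p b r n hi)
    (hs : X + Y + Z = 3 * A) (hm : (X - Y) % 3 = 2) (q1 : C5 A p b r n X Y Z)
    (q2 : C7 A p b r n X Y Z) : False := by
  obtain ⟨⟨h1, h2, h3, H⟩, h0⟩ := H
  unfold C5 Box at q1
  unfold C7 Box at q2
  rcases H with ⟨h4, h5, h6⟩ | ⟨h4, h5, h6⟩ <;> omega

theorem dis58 {A p b r n hi X Y Z : ℤ} (H : Hyp' A p b r n hi)
    (hs : X + Y + Z = 3 * A) (hm : (X - Y) % 3 = 2) (q1 : C5 A p b r n X Y Z)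
    (q2 : C8 A p b r n X Y Z) : False := by
  obtain ⟨⟨h1, h2, h3, H⟩, h0⟩ := H
  unfold C5 Box at q1
  unfold C8 Box at q2
  rcases H with ⟨h4, h5, h6⟩ | ⟨h4, h5, h6⟩ <;> omega

theorem dis59 {A p b r n hi X Y Z : ℤ} (H : Hyp' A p b r n hi)
    (hs : X + Y + Z = 3 * A) (hm : (X - Y) % 3 = 2) (q1 : C5 A p b r n X Y Z)
    (q2 : C9 A p b r n X Y Z) : False := by
  obtain ⟨⟨h1, h2, h3, H⟩, h0⟩ := H
  unfold C5 Box at q1
  unfold C9 Box at q2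
  rcases H with ⟨h4, h5, h6⟩ | ⟨h4, h5, h6⟩ <;> omega

theorem dis67 {A p b r n hi X Y Z : ℤ} (H : Hyp' A p b r n hi)
    (hs : X + Y + Z = 3 * A) (hm : (X - Y) % 3 = 2) (q1 : C6 A p b r n X Y Z)
    (q2 : C7 A p b r n X Y Z) : False := by
  obtain ⟨⟨h1, h2, h3, H⟩, h0⟩ := H
  unfold C6 Box at q1
  unfold C7 Box at q2
  rcases H with ⟨h4, h5, h6⟩ | ⟨h4, h5, h6⟩ <;> omega

theorem dis68 {A p b r n hi X Y Z : ℤ} (H : Hyp' A p b r n hi)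
    (hs : X + Y + Z = 3 * A) (hm : (X - Y) % 3 = 2) (q1 : C6 A p b r n X Y Z)
    (q2 : C8 A p b r n X Y Z) : False := by
  obtain ⟨⟨h1, h2, h3, H⟩, h0⟩ := H
  unfold C6 Box at q1
  unfold C8 Box at q2
  rcases H with ⟨h4, h5, h6⟩ | ⟨h4, h5, h6⟩ <;> omega

theorem dis69 {A p b r n hi X Y Z : ℤ} (H : Hyp' A p b r n hi)
    (hs : X + Y + Z = 3 * A) (hm : (X - Y) % 3 = 2) (q1 : C6 A p b r n X Y Z)
    (q2 : C9 A p b r n X Y Z) : False := by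
  obtain ⟨⟨h1, h2, h3, H⟩, h0⟩ := H
  unfold C6 Box at q1
  unfold C9 Box at q2
  rcases H with ⟨h4, h5, h6⟩ | ⟨h4, h5, h6⟩ <;> omega

theorem dis78 {A p b r n hi X Y Z : ℤ} (H : Hyp' A p b r n hi)
    (hs : X + Y + Z = 3 * A) (hm : (X - Y) % 3 = 2) (q1 : C7 A p b r n X Y Z)
    (q2 : C8 A p b r n X Y Z) : False := by
  obtain ⟨⟨h1, h2, h3, H⟩, h0⟩ := H
  unfold C7 Box at q1
  unfold C8 Box at q2
  rcases H with ⟨h4, h5, h6⟩ | ⟨h4, h5, h6⟩ <;> omega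

theorem dis79 {A p b r n hi X Y Z : ℤ} (H : Hyp' A p b r n hi)
    (hs : X + Y + Z = 3 * A) (hm : (X - Y) % 3 = 2) (q1 : C7 A p b r n X Y Z)
    (q2 : C9 A p b r n X Y Z) : False := by
  obtain ⟨⟨h1, h2, h3, H⟩, h0⟩ := H
  unfold C7 Box at q1
  unfold C9 Box at q2
  rcases H with ⟨h4, h5, h6⟩ | ⟨h4, h5, h6⟩ <;> omega

theorem dis89 {A p b r n hi X Y Z : ℤ} (H : Hyp' A p b r n hi)
    (hs : X + Y + Z = 3 * A) (hm : (X - Y) % 3 = 2) (q1 : C8 A p b r n X Y Z)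
    (q2 : C9 A p b r n X Y Z) : False := by
  obtain ⟨⟨h1, h2, h3, H⟩, h0⟩ := H
  unfold C8 Box at q1
  unfold C9 Box at q2
  rcases H with ⟨h4, h5, h6⟩ | ⟨h4, h5, h6⟩ <;> omega

theorem sub0 {A p b r n hi X Y Z : ℤ} (H : Hyp' A p b r n hi)
    (hs : X + Y + Z = 3 * A) (hm : (X - Y) % 3 = 2) (q : C0 A p b r hi X Y Z) :
    Inn A p (b - 1) hi X Y Z := by
  obtain ⟨⟨h1, h2, h3, H⟩, h0⟩ := H
  have q' := q
  unfold C0 Box at q'
  refine ⟨q.1, ?_⟩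
  rcases H with ⟨h4, h5, h6⟩ | ⟨h4, h5, h6⟩ <;> omega

theorem sub1 {A p b r n hi X Y Z : ℤ} (H : Hyp' A p b r n hi)
    (hs : X + Y + Z = 3 * A) (hm : (X - Y) % 3 = 2) (q : C1 A p b r hi X Y Z) :
    Inn A p (b - 1) hi X Y Z := by
  obtain ⟨⟨h1, h2, h3, H⟩, h0⟩ := H
  have q' := q
  unfold C1 Box at q'
  refine ⟨q.1, ?_⟩
  rcases H with ⟨h4, h5, h6⟩ | ⟨h4, h5, h6⟩ <;> omega

theorem sub2 {A p b r n hi X Y Z : ℤ} (H : Hyp' A p b r n hi)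
    (hs : X + Y + Z = 3 * A) (hm : (X - Y) % 3 = 2) (q : C2 A p b r n hi X Y Z) :
    Inn A p (b - 1) hi X Y Z := by
  obtain ⟨⟨h1, h2, h3, H⟩, h0⟩ := H
  have q' := q
  unfold C2 Box at q'
  refine ⟨q.1, ?_⟩
  rcases H with ⟨h4, h5, h6⟩ | ⟨h4, h5, h6⟩ <;> omega

theorem sub3 {A p b r n hi X Y Z : ℤ} (H : Hyp' A p b r n hi)
    (hs : X + Y + Z = 3 * A) (hm : (X - Y) % 3 = 2) (q : C3 A p b r n X Y Z) :
    Inn A p (b - 1) hi X Y Z := by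
  obtain ⟨⟨h1, h2, h3, H⟩, h0⟩ := H
  have q' := q
  unfold C3 Box at q'
  refine ⟨q.1, ?_⟩
  rcases H with ⟨h4, h5, h6⟩ | ⟨h4, h5, h6⟩ <;> omega

theorem sub4 {A p b r n hi X Y Z : ℤ} (H : Hyp' A p b r n hi)
    (hs : X + Y + Z = 3 * A) (hm : (X - Y) % 3 = 2) (q : C4 A p b r n X Y Z) :
    Inn A p (b - 1) hi X Y Z := by
  obtain ⟨⟨h1, h2, h3, H⟩, h0⟩ := H
  have q' := q
  unfold C4 Box at q'
  refine ⟨q.1, ?_⟩
  rcases H with ⟨h4, h5, h6⟩ | ⟨h4, h5, h6⟩ <;> omega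

theorem sub5 {A p b r n hi X Y Z : ℤ} (H : Hyp' A p b r n hi)
    (hs : X + Y + Z = 3 * A) (hm : (X - Y) % 3 = 2) (q : C5 A p b r n X Y Z) :
    Inn A p (b - 1) hi X Y Z := by
  obtain ⟨⟨h1, h2, h3, H⟩, h0⟩ := H
  have q' := q
  unfold C5 Box at q'
  refine ⟨q.1, ?_⟩
  rcases H with ⟨h4, h5, h6⟩ | ⟨h4, h5, h6⟩ <;> omega

theorem sub6 {A p b r n hi X Y Z : ℤ} (H : Hyp' A p b r n hi)
    (hs : X + Y + Z = 3 * A) (hm : (X - Y) % 3 = 2) (q : C6 A p b r n X Y Z) :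
    Inn A p (b - 1) hi X Y Z := by
  obtain ⟨⟨h1, h2, h3, H⟩, h0⟩ := H
  have q' := q
  unfold C6 Box at q'
  refine ⟨q.1, ?_⟩
  rcases H with ⟨h4, h5, h6⟩ | ⟨h4, h5, h6⟩ <;> omega

theorem sub7 {A p b r n hi X Y Z : ℤ} (H : Hyp' A p b r n hi)
    (hs : X + Y + Z = 3 * A) (hm : (X - Y) % 3 = 2) (q : C7 A p b r n X Y Z) :
    Inn A p (b - 1) hi X Y Z := by
  obtain ⟨⟨h1, h2, h3, H⟩, h0⟩ := H
  have q' := q
  unfold C7 Box at q'
  refine ⟨q.1, ?_⟩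
  rcases H with ⟨h4, h5, h6⟩ | ⟨h4, h5, h6⟩ <;> omega

theorem sub8 {A p b r n hi X Y Z : ℤ} (H : Hyp' A p b r n hi)
    (hs : X + Y + Z = 3 * A) (hm : (X - Y) % 3 = 2) (q : C8 A p b r n X Y Z) :
    Inn A p (b - 1) hi X Y Z := by
  obtain ⟨⟨h1, h2, h3, H⟩, h0⟩ := H
  have q' := q
  unfold C8 Box at q'
  refine ⟨q.1, ?_⟩
  rcases H with ⟨h4, h5, h6⟩ | ⟨h4, h5, h6⟩ <;> omega

theorem sub9 {A p b r n hi X Y Z : ℤ} (H : Hyp' A p b r n hi)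
    (hs : X + Y + Z = 3 * A) (hm : (X - Y) % 3 = 2) (q : C9 A p b r n X Y Z) :
    Inn A p (b - 1) hi X Y Z := by
  obtain ⟨⟨h1, h2, h3, H⟩, h0⟩ := H
  have q' := q
  unfold C9 Box at q'
  refine ⟨q.1, ?_⟩
  rcases H with ⟨h4, h5, h6⟩ | ⟨h4, h5, h6⟩ <;> omega

/-- The centre is tileable. -/
theorem inn_tileable {A p b r n hi : ℤ} (H : Hyp' A p b r n hi) :
    Tileable (reg A (Inn A p (b - 1) hi)) := by
  have t9 := c9_tile H
  have t8 : Tileable (reg A fun X Y Z =>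
        C8 A p b r n X Y Z ∨
        C9 A p b r n X Y Z) := by
    refine tileable_or (c8_tile H) t9 ?_ (fun _ _ _ _ _ => Iff.rfl)
    intro X Y Z hs hm q1 q2
    exact dis89 H hs hm q1 q2
  have t7 : Tileable (reg A fun X Y Z =>
        C7 A p b r n X Y Z ∨
        C8 A p b r n X Y Z ∨
        C9 A p b r n X Y Z) := by
    refine tileable_or (c7_tile H) t8 ?_ (fun _ _ _ _ _ => Iff.rfl)
    intro X Y Z hs hm q1 q2
    rcases q2 with q2 | q2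
    · exact dis78 H hs hm q1 q2
    · exact dis79 H hs hm q1 q2
  have t6 : Tileable (reg A fun X Y Z =>
        C6 A p b r n X Y Z ∨
        C7 A p b r n X Y Z ∨
        C8 A p b r n X Y Z ∨
        C9 A p b r n X Y Z) := by
    refine tileable_or (c6_tile H) t7 ?_ (fun _ _ _ _ _ => Iff.rfl)
    intro X Y Z hs hm q1 q2
    rcases q2 with q2 | q2 | q2
    · exact dis67 H hs hm q1 q2
    · exact dis68 H hs hm q1 q2
    · exact dis69 H hs hm q1 q2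
  have t5 : Tileable (reg A fun X Y Z =>
        C5 A p b r n X Y Z ∨
        C6 A p b r n X Y Z ∨
        C7 A p b r n X Y Z ∨
        C8 A p b r n X Y Z ∨
        C9 A p b r n X Y Z) := by
    refine tileable_or (c5_tile H) t6 ?_ (fun _ _ _ _ _ => Iff.rfl)
    intro X Y Z hs hm q1 q2
    rcases q2 with q2 | q2 | q2 | q2
    · exact dis56 H hs hm q1 q2
    · exact dis57 H hs hm q1 q2
    · exact dis58 H hs hm q1 q2
    · exact dis59 H hs hm q1 q2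
  have t4 : Tileable (reg A fun X Y Z =>
        C4 A p b r n X Y Z ∨
        C5 A p b r n X Y Z ∨
        C6 A p b r n X Y Z ∨
        C7 A p b r n X Y Z ∨
        C8 A p b r n X Y Z ∨
        C9 A p b r n X Y Z) := by
    refine tileable_or (c4_tile H) t5 ?_ (fun _ _ _ _ _ => Iff.rfl)
    intro X Y Z hs hm q1 q2
    rcases q2 with q2 | q2 | q2 | q2 | q2
    · exact dis45 H hs hm q1 q2
    · exact dis46 H hs hm q1 q2
    · exact dis47 H hs hm q1 q2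
    · exact dis48 H hs hm q1 q2
    · exact dis49 H hs hm q1 q2
  have t3 : Tileable (reg A fun X Y Z =>
        C3 A p b r n X Y Z ∨
        C4 A p b r n X Y Z ∨
        C5 A p b r n X Y Z ∨
        C6 A p b r n X Y Z ∨
        C7 A p b r n X Y Z ∨
        C8 A p b r n X Y Z ∨
        C9 A p b r n X Y Z) := by
    refine tileable_or (c3_tile H) t4 ?_ (fun _ _ _ _ _ => Iff.rfl)
    intro X Y Z hs hm q1 q2
    rcases q2 with q2 | q2 | q2 | q2 | q2 | q2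
    · exact dis34 H hs hm q1 q2
    · exact dis35 H hs hm q1 q2
    · exact dis36 H hs hm q1 q2
    · exact dis37 H hs hm q1 q2
    · exact dis38 H hs hm q1 q2
    · exact dis39 H hs hm q1 q2
  have t2 : Tileable (reg A fun X Y Z =>
        C2 A p b r n hi X Y Z ∨
        C3 A p b r n X Y Z ∨
        C4 A p b r n X Y Z ∨
        C5 A p b r n X Y Z ∨
        C6 A p b r n X Y Z ∨
        C7 A p b r n X Y Z ∨
        C8 A p b r n X Y Z ∨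
        C9 A p b r n X Y Z) := by
    refine tileable_or (c2_tile H) t3 ?_ (fun _ _ _ _ _ => Iff.rfl)
    intro X Y Z hs hm q1 q2
    rcases q2 with q2 | q2 | q2 | q2 | q2 | q2 | q2
    · exact dis23 H hs hm q1 q2
    · exact dis24 H hs hm q1 q2
    · exact dis25 H hs hm q1 q2
    · exact dis26 H hs hm q1 q2
    · exact dis27 H hs hm q1 q2
    · exact dis28 H hs hm q1 q2
    · exact dis29 H hs hm q1 q2
  have t1 : Tileable (reg A fun X Y Z =>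
        C1 A p b r hi X Y Z ∨
        C2 A p b r n hi X Y Z ∨
        C3 A p b r n X Y Z ∨
        C4 A p b r n X Y Z ∨
        C5 A p b r n X Y Z ∨
        C6 A p b r n X Y Z ∨
        C7 A p b r n X Y Z ∨
        C8 A p b r n X Y Z ∨
        C9 A p b r n X Y Z) := by
    refine tileable_or (layer_one H.1) t2 ?_ (fun _ _ _ _ _ => Iff.rfl)
    intro X Y Z hs hm q1 q2
    rcases q2 with q2 | q2 | q2 | q2 | q2 | q2 | q2 | q2
    · exact dis12 H hs hm q1 q2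
    · exact dis13 H hs hm q1 q2
    · exact dis14 H hs hm q1 q2
    · exact dis15 H hs hm q1 q2
    · exact dis16 H hs hm q1 q2
    · exact dis17 H hs hm q1 q2
    · exact dis18 H hs hm q1 q2
    · exact dis19 H hs hm q1 q2
  have t0 : Tileable (reg A fun X Y Z =>
        C0 A p b r hi X Y Z ∨
        C1 A p b r hi X Y Z ∨
        C2 A p b r n hi X Y Z ∨
        C3 A p b r n X Y Z ∨
        C4 A p b r n X Y Z ∨
        C5 A p b r n X Y Z ∨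
        C6 A p b r n X Y Z ∨
        C7 A p b r n X Y Z ∨
        C8 A p b r n X Y Z ∨
        C9 A p b r n X Y Z) := by
    refine tileable_or (layer_zero H.1) t1 ?_ (fun _ _ _ _ _ => Iff.rfl)
    intro X Y Z hs hm q1 q2
    rcases q2 with q2 | q2 | q2 | q2 | q2 | q2 | q2 | q2 | q2
    · exact dis01 H hs hm q1 q2
    · exact dis02 H hs hm q1 q2
    · exact dis03 H hs hm q1 q2
    · exact dis04 H hs hm q1 q2
    · exact dis05 H hs hm q1 q2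
    · exact dis06 H hs hm q1 q2
    · exact dis07 H hs hm q1 q2
    · exact dis08 H hs hm q1 q2
    · exact dis09 H hs hm q1 q2
  rw [reg_congr (Q' := fun X Y Z =>
        C0 A p b r hi X Y Z ∨
        C1 A p b r hi X Y Z ∨
        C2 A p b r n hi X Y Z ∨
        C3 A p b r n X Y Z ∨
        C4 A p b r n X Y Z ∨
        C5 A p b r n X Y Z ∨
        C6 A p b r n X Y Z ∨
        C7 A p b r n X Y Z ∨
        C8 A p b r n X Y Z ∨
        C9 A p b r n X Y Z)]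
  · exact t0
  · intro X Y Z hs hm
    constructor
    · exact cover_all H hs hm
    · intro q
      rcases q with q | q | q | q | q | q | q | q | q | q
      · exact sub0 H hs hm q
      · exact sub1 H hs hm q
      · exact sub2 H hs hm q
      · exact sub3 H hs hm q
      · exact sub4 H hs hm q
      · exact sub5 H hs hm q
      · exact sub6 H hs hm q
      · exact sub7 H hs hm q
      · exact sub8 H hs hm q
      · exact sub9 H hs hm q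

end Helper64K9.Benzel
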