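import Pool.Agent.Helper64K9.Benzel.Defs

/-!
# Benzels: tileable regions (MP_59b97c_co)
-/

set_option autoImplicit false

namespace Helper64K9.Benzel

/-- The region has a type 103 tiling. -/
def Tileable (R : Set Pt) : Prop := ∃ 𝒯 : Set (Set Pt), IsTiling103 R 𝒯

theorem Tileable.union {R S : Set Pt} (hR : Tileable R) (hS : Tileable S)
    (h : ∀ c, c ∈ R → c ∈ S → False) : Tileable (R ∪ S) := by
  obtain ⟨T1, h1⟩ := hR
  obtain ⟨T2, h2⟩ := hS
  refine ⟨T1 ∪ T2, ⟨?_, ?_, ?_, ?_⟩⟩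
  · rintro T (hT | hT)
    · exact h1.tile T hT
    · exact h2.tile T hT
  · rintro T (hT | hT)
    · exact (h1.sub T hT).trans Set.subset_union_left
    · exact (h2.sub T hT).trans Set.subset_union_right
  · rintro c (hc | hc)
    · obtain ⟨T, hT, hcT⟩ := h1.cover c hc
      exact ⟨T, Or.inl hT, hcT⟩
    · obtain ⟨T, hT, hcT⟩ := h2.cover c hc
      exact ⟨T, Or.inr hT, hcT⟩
  · rintro T (hT | hT) T' (hT' | hT') hne
    · exact h1.disj T hT T' hT' hne
    · exact Set.disjoint_left.2 fun x hx hx' => h x (h1.sub T hT hx) (h2.sub T' hT' hx')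
    · exact Set.disjoint_left.2 fun x hx hx' => h x (h1.sub T' hT' hx') (h2.sub T hT hx)
    · exact h2.disj T hT T' hT' hne

theorem tileable_of_base (R : Set Pt) (base : Pt → Pt) (u0 u1 u2 : Pt)
    (ht : ∀ c ∈ R, IsTile {base c + u0, base c + u1, base c + u2})
    (hb : ∀ c ∈ R, c = base c + u0 ∨ c = base c + u1 ∨ c = base c + u2)
    (hc : ∀ c ∈ R, ∀ u, u = u0 ∨ u = u1 ∨ u = u2 →
      base c + u ∈ R ∧ base (base c + u) = base c) : Tileable R := by
  refine ⟨(fun c => {base c + u0, base c + u1, base c + u2}) '' R, ⟨?_, ?_, ?_, ?_⟩⟩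
  · rintro T ⟨c, hcR, rfl⟩
    exact ht c hcR
  · rintro T ⟨c, hcR, rfl⟩ x hx
    simp only [Set.mem_insert_iff, Set.mem_singleton_iff] at hx
    rcases hx with rfl | rfl | rfl
    · exact (hc c hcR u0 (Or.inl rfl)).1
    · exact (hc c hcR u1 (Or.inr (Or.inl rfl))).1
    · exact (hc c hcR u2 (Or.inr (Or.inr rfl))).1
  · intro c hcR
    refine ⟨_, ⟨c, hcR, rfl⟩, ?_⟩
    simp only [Set.mem_insert_iff, Set.mem_singleton_iff]
    exact hb c hcR
  · rintro T ⟨c, hcR, rfl⟩ T' ⟨c', hcR', rfl⟩ hne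
    refine Set.disjoint_left.2 fun x hx hx' => hne ?_
    simp only [Set.mem_insert_iff, Set.mem_singleton_iff] at hx hx'
    have e1 : base x = base c := by
      rcases hx with rfl | rfl | rfl
      · exact (hc c hcR u0 (Or.inl rfl)).2
      · exact (hc c hcR u1 (Or.inr (Or.inl rfl))).2
      · exact (hc c hcR u2 (Or.inr (Or.inr rfl))).2
    have e2 : base x = base c' := by
      rcases hx' with rfl | rfl | rfl
      · exact (hc c' hcR' u0 (Or.inl rfl)).2
      · exact (hc c' hcR' u1 (Or.inr (Or.inl rfl))).2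
      · exact (hc c' hcR' u2 (Or.inr (Or.inr rfl))).2
    simp only [← e1, ← e2]

/-- The region given by a condition on the coordinates `X, Y, Z` of a cell. -/
def reg (A : ℤ) (Q : ℤ → ℤ → ℤ → Prop) : Set Pt :=
  {c | IsCell c ∧ Q (c.2.1 - c.1 + A) (c.2.2 - c.2.1 + A) (c.1 - c.2.2 + A)}

theorem reg_congr {A : ℤ} {Q Q' : ℤ → ℤ → ℤ → Prop}
    (h : ∀ X Y Z, X + Y + Z = 3 * A → (X - Y) % 3 = 2 → (Q X Y Z ↔ Q' X Y Z)) :
    reg A Q = reg A Q' := by
  ext ⟨i, j, k⟩
  simp only [reg, IsCell, Set.mem_ofPred_eq]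
  constructor
  · rintro ⟨hc, hq⟩
    exact ⟨hc, (h _ _ _ (by omega) (by omega)).1 hq⟩
  · rintro ⟨hc, hq⟩
    exact ⟨hc, (h _ _ _ (by omega) (by omega)).2 hq⟩

theorem tileable_empty_reg {A : ℤ} {Q : ℤ → ℤ → ℤ → Prop}
    (h : ∀ X Y Z, X + Y + Z = 3 * A → (X - Y) % 3 = 2 → ¬ Q X Y Z) : Tileable (reg A Q) := by
  refine ⟨∅, ⟨?_, ?_, ?_, ?_⟩⟩
  · rintro T ⟨⟩
  · rintro T ⟨⟩
  · rintro ⟨i, j, k⟩ hc
    simp only [reg, IsCell, Set.mem_ofPred_eq] at hc
    exact absurd hc.2 (h _ _ _ (by omega) (by omega))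
  · rintro T ⟨⟩

theorem tileable_or {A : ℤ} {Q Q1 Q2 : ℤ → ℤ → ℤ → Prop}
    (h1 : Tileable (reg A Q1)) (h2 : Tileable (reg A Q2))
    (hd : ∀ X Y Z, X + Y + Z = 3 * A → (X - Y) % 3 = 2 → Q1 X Y Z → Q2 X Y Z → False)
    (h : ∀ X Y Z, X + Y + Z = 3 * A → (X - Y) % 3 = 2 → (Q X Y Z ↔ Q1 X Y Z ∨ Q2 X Y Z)) :
    Tileable (reg A Q) := by
  have e : reg A Q = reg A Q1 ∪ reg A Q2 := by
    ext ⟨i, j, k⟩
    simp only [reg, IsCell, Set.mem_ofPred_eq, Set.mem_union]
    constructor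
    · rintro ⟨hc, hq⟩
      rcases (h _ _ _ (by omega) (by omega)).1 hq with h' | h'
      · exact Or.inl ⟨hc, h'⟩
      · exact Or.inr ⟨hc, h'⟩
    · rintro (⟨hc, hq⟩ | ⟨hc, hq⟩)
      · exact ⟨hc, (h _ _ _ (by omega) (by omega)).2 (Or.inl hq)⟩
      · exact ⟨hc, (h _ _ _ (by omega) (by omega)).2 (Or.inr hq)⟩
  rw [e]
  refine h1.union h2 ?_
  rintro ⟨i, j, k⟩ hc hc'
  simp only [reg, IsCell, Set.mem_ofPred_eq] at hc hc'
  exact hd _ _ _ (by omega) (by omega) hc.2 hc'.2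

theorem isTile_bone {P0 P1 P2 v : Pt} (hc : IsCell P1)
    (hv : v = (1, -1, 0) ∨ v = (0, 1, -1) ∨ v = (-1, 0, 1)) (h0 : P0 = P1 - v)
    (h2 : P2 = P1 + v) : IsTile {P0, P1, P2} := by
  right
  exact ⟨P1, hc, v, hv, by rw [h0, h2]; rfl⟩

theorem isTile_stone {P0 P1 P2 t : Pt} (ht : t.1 + t.2.1 + t.2.2 = 0)
    (h0 : P0 = t + (1, 0, 0)) (h1 : P1 = t + (0, 1, 0)) (h2 : P2 = t + (0, 0, 1)) :
    IsTile {P0, P1, P2} := by
  left
  exact ⟨t, ht, by rw [h0, h1, h2]; rfl⟩

theorem reg_mem {A : ℤ} {Q : ℤ → ℤ → ℤ → Prop} (i j k X Y Z : ℤ) (h : i + j + k = 1)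
    (hX : X = j - i + A) (hY : Y = k - j + A) (hZ : Z = i - k + A) (hQ : Q X Y Z) :
    ((i, j, k) : Pt) ∈ reg A Q := by
  subst hX hY hZ
  exact ⟨h, hQ⟩

theorem pt_add (a b c a' b' c' x y z : ℤ) (h1 : a + a' = x) (h2 : b + b' = y) (h3 : c + c' = z) :
    ((a, b, c) : Pt) + (a', b', c') = (x, y, z) := by
  subst h1 h2 h3; rfl

theorem pt_sub (a b c a' b' c' x y z : ℤ) (h1 : a - a' = x) (h2 : b - b' = y) (h3 : c - c' = z) :
    ((a, b, c) : Pt) - (a', b', c') = (x, y, z) := by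
  subst h1 h2 h3; rfl

theorem pt_eq (a b c x y z : ℤ) (h1 : a = x) (h2 : b = y) (h3 : c = z) :
    ((a, b, c) : Pt) = (x, y, z) := by
  subst h1 h2 h3; rfl

/-- Bones in the direction `(1, -1, 0)`. -/
theorem tileable_zero {A : ℤ} (f : ℤ) {Q : ℤ → ℤ → ℤ → Prop}
    (h : ∀ X Y Z, X + Y + Z = 3 * A → (X - Y) % 3 = 2 → (Y - f) % 3 = 0 →
      (Q X Y Z ∨ Q (X - 2) (Y + 1) (Z + 1) ∨ Q (X - 4) (Y + 2) (Z + 2)) →
      Q X Y Z ∧ Q (X - 2) (Y + 1) (Z + 1) ∧ Q (X - 4) (Y + 2) (Z + 2)) :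
    Tileable (reg A Q) := by
  refine tileable_of_base _ (fun c => (c.1 - (c.2.2 - c.2.1 + A - f) % 3,
    c.2.1 + (c.2.2 - c.2.1 + A - f) % 3, c.2.2)) (0, 0, 0) (1, -1, 0) (2, -2, 0) ?_ ?_ ?_
  · rintro ⟨i, j, k⟩ ⟨hc, -⟩
    simp only [IsCell] at hc
    refine isTile_bone (v := (1, -1, 0)) ?_ (Or.inl rfl) ?_ ?_
    · simp only [IsCell, Prod.mk_add_mk]; omega
    · simp only [Prod.mk_add_mk, Prod.mk_sub_mk]
      apply pt_eq <;> omega
    · simp only [Prod.mk_add_mk]
      apply pt_eq <;> omega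
  · rintro ⟨i, j, k⟩ ⟨hc, -⟩
    simp only [Prod.mk_add_mk, Prod.mk.injEq]
    omega
  · rintro ⟨i, j, k⟩ ⟨hc, hq⟩ u hu
    simp only [IsCell] at hc
    simp only at hq
    obtain ⟨s, hs⟩ : ∃ s, s = (k - j + A - f) % 3 := ⟨_, rfl⟩
    have h' := h (j - i + A + 2 * s) (k - j + A - s) (i - k + A - s) (by omega) (by omega)
      (by omega) (by
        have h3 : s = 0 ∨ s = 1 ∨ s = 2 := by omega
        rcases h3 with h3 | h3 | h3
        · left
          rw [h3]
          convert hq using 1 <;> ring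
        · right; left
          rw [h3]
          convert hq using 1 <;> ring
        · right; right
          rw [h3]
          convert hq using 1 <;> ring)
    simp only [← hs]
    rcases hu with rfl | rfl | rfl
    · simp only [Prod.mk_add_mk, Prod.mk.injEq]
      exact ⟨reg_mem _ _ _ _ _ _ (by omega) (by omega) (by omega) (by omega) h'.1,
        by omega, by omega, by omega⟩
    · simp only [Prod.mk_add_mk, Prod.mk.injEq]
      exact ⟨reg_mem _ _ _ _ _ _ (by omega) (by omega) (by omega) (by omega) h'.2.1,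
        by omega, by omega, by omega⟩
    · simp only [Prod.mk_add_mk, Prod.mk.injEq]
      exact ⟨reg_mem _ _ _ _ _ _ (by omega) (by omega) (by omega) (by omega) h'.2.2,
        by omega, by omega, by omega⟩

/-- Bones in the direction `(0, 1, -1)`. -/
theorem tileable_one {A : ℤ} (g : ℤ) {Q : ℤ → ℤ → ℤ → Prop}
    (h : ∀ X Y Z, X + Y + Z = 3 * A → (X - Y) % 3 = 2 → (Z - g) % 3 = 0 →
      (Q X Y Z ∨ Q (X + 1) (Y - 2) (Z + 1) ∨ Q (X + 2) (Y - 4) (Z + 2)) →
      Q X Y Z ∧ Q (X + 1) (Y - 2) (Z + 1) ∧ Q (X + 2) (Y - 4) (Z + 2)) :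
    Tileable (reg A Q) := by
  refine tileable_of_base _ (fun c => (c.1, c.2.1 - (c.1 - c.2.2 + A - g) % 3,
    c.2.2 + (c.1 - c.2.2 + A - g) % 3)) (0, 0, 0) (0, 1, -1) (0, 2, -2) ?_ ?_ ?_
  · rintro ⟨i, j, k⟩ ⟨hc, -⟩
    simp only [IsCell] at hc
    refine isTile_bone (v := (0, 1, -1)) ?_ (Or.inr (Or.inl rfl)) ?_ ?_
    · simp only [IsCell, Prod.mk_add_mk]; omega
    · simp only [Prod.mk_add_mk, Prod.mk_sub_mk]
      apply pt_eq <;> omega
    · simp only [Prod.mk_add_mk]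
      apply pt_eq <;> omega
  · rintro ⟨i, j, k⟩ ⟨hc, -⟩
    simp only [Prod.mk_add_mk, Prod.mk.injEq]
    omega
  · rintro ⟨i, j, k⟩ ⟨hc, hq⟩ u hu
    simp only [IsCell] at hc
    simp only at hq
    obtain ⟨s, hs⟩ : ∃ s, s = (i - k + A - g) % 3 := ⟨_, rfl⟩
    have h' := h (j - i + A - s) (k - j + A + 2 * s) (i - k + A - s) (by omega) (by omega)
      (by omega) (by
        have h3 : s = 0 ∨ s = 1 ∨ s = 2 := by omega
        rcases h3 with h3 | h3 | h3
        · left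
          rw [h3]
          convert hq using 1 <;> ring
        · right; left
          rw [h3]
          convert hq using 1 <;> ring
        · right; right
          rw [h3]
          convert hq using 1 <;> ring)
    simp only [← hs]
    rcases hu with rfl | rfl | rfl
    · simp only [Prod.mk_add_mk, Prod.mk.injEq]
      exact ⟨reg_mem _ _ _ _ _ _ (by omega) (by omega) (by omega) (by omega) h'.1,
        by omega, by omega, by omega⟩
    · simp only [Prod.mk_add_mk, Prod.mk.injEq]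
      exact ⟨reg_mem _ _ _ _ _ _ (by omega) (by omega) (by omega) (by omega) h'.2.1,
        by omega, by omega, by omega⟩
    · simp only [Prod.mk_add_mk, Prod.mk.injEq]
      exact ⟨reg_mem _ _ _ _ _ _ (by omega) (by omega) (by omega) (by omega) h'.2.2,
        by omega, by omega, by omega⟩

/-- Bones in the direction `(-1, 0, 1)`. -/
theorem tileable_two {A : ℤ} (e : ℤ) {Q : ℤ → ℤ → ℤ → Prop}
    (h : ∀ X Y Z, X + Y + Z = 3 * A → (X - Y) % 3 = 2 → (X - e) % 3 = 0 →
      (Q X Y Z ∨ Q (X + 1) (Y + 1) (Z - 2) ∨ Q (X + 2) (Y + 2) (Z - 4)) →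
      Q X Y Z ∧ Q (X + 1) (Y + 1) (Z - 2) ∧ Q (X + 2) (Y + 2) (Z - 4)) :
    Tileable (reg A Q) := by
  refine tileable_of_base _ (fun c => (c.1 + (c.2.1 - c.1 + A - e) % 3, c.2.1,
    c.2.2 - (c.2.1 - c.1 + A - e) % 3)) (0, 0, 0) (-1, 0, 1) (-2, 0, 2) ?_ ?_ ?_
  · rintro ⟨i, j, k⟩ ⟨hc, -⟩
    simp only [IsCell] at hc
    refine isTile_bone (v := (-1, 0, 1)) ?_ (Or.inr (Or.inr rfl)) ?_ ?_
    · simp only [IsCell, Prod.mk_add_mk]; omega
    · simp only [Prod.mk_add_mk, Prod.mk_sub_mk]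
      apply pt_eq <;> omega
    · simp only [Prod.mk_add_mk]
      apply pt_eq <;> omega
  · rintro ⟨i, j, k⟩ ⟨hc, -⟩
    simp only [Prod.mk_add_mk, Prod.mk.injEq]
    omega
  · rintro ⟨i, j, k⟩ ⟨hc, hq⟩ u hu
    simp only [IsCell] at hc
    simp only at hq
    obtain ⟨s, hs⟩ : ∃ s, s = (j - i + A - e) % 3 := ⟨_, rfl⟩
    have h' := h (j - i + A - s) (k - j + A - s) (i - k + A + 2 * s) (by omega) (by omega)
      (by omega) (by
        have h3 : s = 0 ∨ s = 1 ∨ s = 2 := by omega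
        rcases h3 with h3 | h3 | h3
        · left
          rw [h3]
          convert hq using 1 <;> ring
        · right; left
          rw [h3]
          convert hq using 1 <;> ring
        · right; right
          rw [h3]
          convert hq using 1 <;> ring)
    simp only [← hs]
    rcases hu with rfl | rfl | rfl
    · simp only [Prod.mk_add_mk, Prod.mk.injEq]
      exact ⟨reg_mem _ _ _ _ _ _ (by omega) (by omega) (by omega) (by omega) h'.1,
        by omega, by omega, by omega⟩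
    · simp only [Prod.mk_add_mk, Prod.mk.injEq]
      exact ⟨reg_mem _ _ _ _ _ _ (by omega) (by omega) (by omega) (by omega) h'.2.1,
        by omega, by omega, by omega⟩
    · simp only [Prod.mk_add_mk, Prod.mk.injEq]
      exact ⟨reg_mem _ _ _ _ _ _ (by omega) (by omega) (by omega) (by omega) h'.2.2,
        by omega, by omega, by omega⟩

/-- Right stones. -/
theorem tileable_stone {A : ℤ} (e : ℤ) {Q : ℤ → ℤ → ℤ → Prop}
    (h : ∀ x y z, x + y + z + 3 = 3 * A → (x - e) % 3 = 0 → (y - e) % 3 = 0 →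
      (z - e) % 3 = 0 →
      (Q x (y + 1) (z + 2) ∨ Q (x + 2) y (z + 1) ∨ Q (x + 1) (y + 2) z) →
      Q x (y + 1) (z + 2) ∧ Q (x + 2) y (z + 1) ∧ Q (x + 1) (y + 2) z) :
    Tileable (reg A Q) := by
  refine tileable_of_base _ (fun c => if (c.2.1 - c.1 + A - e) % 3 = 0 then
      (c.1 - 1, c.2.1, c.2.2) else if (c.2.1 - c.1 + A - e) % 3 = 2 then
      (c.1, c.2.1 - 1, c.2.2) else (c.1, c.2.1, c.2.2 - 1)) (1, 0, 0) (0, 1, 0) (0, 0, 1)
      ?_ ?_ ?_
  · rintro ⟨i, j, k⟩ ⟨hc, -⟩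
    simp only [IsCell] at hc
    refine isTile_stone ?_ rfl rfl rfl
    split_ifs <;> simp only <;> omega
  · rintro ⟨i, j, k⟩ ⟨hc, -⟩
    simp only
    split_ifs <;> simp only [Prod.mk_add_mk, Prod.mk.injEq] <;> omega
  · rintro ⟨i, j, k⟩ ⟨hc, hq⟩ u hu
    simp only [IsCell] at hc
    simp only at hq
    have h3 : (j - i + A - e) % 3 = 0 ∨ (j - i + A - e) % 3 = 1 ∨ (j - i + A - e) % 3 = 2 := by
      omega
    rcases h3 with h3 | h3 | h3
    · have h' := h (j - i + A) (k - j + A - 1) (i - k + A - 2) (by omega) (by omega) (by omega)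
        (by omega) (by
          left
          convert hq using 1 <;> ring)
      simp only [h3, if_true]
      rcases hu with rfl | rfl | rfl <;> simp only [Prod.mk_add_mk]
      · refine ⟨reg_mem _ _ _ _ _ _ (by omega) (by omega) (by omega) (by omega) h'.1, ?_⟩
        rw [if_pos (by omega)]
        apply pt_eq <;> omega
      · refine ⟨reg_mem _ _ _ _ _ _ (by omega) (by omega) (by omega) (by omega) h'.2.1, ?_⟩
        rw [if_neg (by omega), if_pos (by omega)]
        apply pt_eq <;> omega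
      · refine ⟨reg_mem _ _ _ _ _ _ (by omega) (by omega) (by omega) (by omega) h'.2.2, ?_⟩
        rw [if_neg (by omega), if_neg (by omega)]
        apply pt_eq <;> omega
    · have h' := h (j - i + A - 1) (k - j + A - 2) (i - k + A) (by omega) (by omega) (by omega)
        (by omega) (by
          right; right
          convert hq using 1 <;> ring)
      simp only [h3, show ¬ ((1 : ℤ) = 0) by omega, show ¬ ((1 : ℤ) = 2) by omega, if_false]
      rcases hu with rfl | rfl | rfl <;> simp only [Prod.mk_add_mk]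
      · refine ⟨reg_mem _ _ _ _ _ _ (by omega) (by omega) (by omega) (by omega) h'.1, ?_⟩
        rw [if_pos (by omega)]
        apply pt_eq <;> omega
      · refine ⟨reg_mem _ _ _ _ _ _ (by omega) (by omega) (by omega) (by omega) h'.2.1, ?_⟩
        rw [if_neg (by omega), if_pos (by omega)]
        apply pt_eq <;> omega
      · refine ⟨reg_mem _ _ _ _ _ _ (by omega) (by omega) (by omega) (by omega) h'.2.2, ?_⟩
        rw [if_neg (by omega), if_neg (by omega)]
        apply pt_eq <;> omega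
    · have h' := h (j - i + A - 2) (k - j + A) (i - k + A - 1) (by omega) (by omega) (by omega)
        (by omega) (by
          right; left
          convert hq using 1 <;> ring)
      simp only [h3, show ¬ ((2 : ℤ) = 0) by omega, if_false, if_true]
      rcases hu with rfl | rfl | rfl <;> simp only [Prod.mk_add_mk]
      · refine ⟨reg_mem _ _ _ _ _ _ (by omega) (by omega) (by omega) (by omega) h'.1, ?_⟩
        rw [if_pos (by omega)]
        apply pt_eq <;> omega
      · refine ⟨reg_mem _ _ _ _ _ _ (by omega) (by omega) (by omega) (by omega) h'.2.1, ?_⟩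
        rw [if_neg (by omega), if_pos (by omega)]
        apply pt_eq <;> omega
      · refine ⟨reg_mem _ _ _ _ _ _ (by omega) (by omega) (by omega) (by omega) h'.2.2, ?_⟩
        rw [if_neg (by omega), if_neg (by omega)]
        apply pt_eq <;> omega

end Helper64K9.Benzel
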