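import Pool.Agent.Helper64K9.Benzel.Final

/-!
# Benzels: the pieces of the centre cover it (MP_59b97c_co)
-/

set_option autoImplicit false

namespace Helper64K9.Benzel

def C0 (A p b r hi X Y Z : ℤ) : Prop :=
  Box A p X Y Z ∧ 3 * r < Y - Z ∧ Y - Z < hi ∧ Z < b ∧ b - 1 ≤ Y

def C1 (A p b r hi X Y Z : ℤ) : Prop :=
  Box A p X Y Z ∧ 3 * r < Z - X ∧ Z - X < hi ∧ X < b ∧ b - 1 ≤ Z

/-- What is left after the outer layers. -/
def Inn (A p c hi X Y Z : ℤ) : Prop :=
  Box A p X Y Z ∧ ¬ ((hi < Y - Z ∧ Z < c) ∨ (hi < Z - X ∧ X < c) ∨ (hi < X - Y ∧ Y < c))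

theorem cover_all {A p b r n hi X Y Z : ℤ} (H : Hyp' A p b r n hi)
    (hs : X + Y + Z = 3 * A) (hm : (X - Y) % 3 = 2) (hq : Inn A p (b - 1) hi X Y Z) :
    C0 A p b r hi X Y Z ∨ C1 A p b r hi X Y Z ∨ C2 A p b r n hi X Y Z ∨ C3 A p b r n X Y Z ∨
      C4 A p b r n X Y Z ∨ C5 A p b r n X Y Z ∨ C6 A p b r n X Y Z ∨ C7 A p b r n X Y Z ∨
      C8 A p b r n X Y Z ∨ C9 A p b r n X Y Z := by
  obtain ⟨hb, hg⟩ := hq
  have hb' := hb
  unfold Box at hb'
  push Not at hg
  obtain ⟨g0, g1, g2⟩ := hg
  obtain ⟨⟨h1, h2, h3, H⟩, h0⟩ := H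
  by_cases a0 : 3 * r < Y - Z
  · by_cases a1 : Z < b
    · by_cases a2 : Y - Z < hi
      · left
        refine ⟨hb, a0, a2, a1, ?_⟩
        rcases H with ⟨h4, h5, h6⟩ | ⟨h4, h5, h6⟩ <;> omega
      · right; left
        have a3 := g0 (by omega)
        refine ⟨hb, ?_⟩
        rcases H with ⟨h4, h5, h6⟩ | ⟨h4, h5, h6⟩ <;> omega
    · by_cases a2 : 3 * r < Z - X
      · by_cases a3 : X < b
        · right; left
          refine ⟨hb, a2, ?_, a3, by omega⟩
          rcases H with ⟨h4, h5, h6⟩ | ⟨h4, h5, h6⟩ <;> omega
        · right; right; right; right; right; right; right; right; right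
          refine ⟨hb, ?_⟩
          rcases H with ⟨h4, h5, h6⟩ | ⟨h4, h5, h6⟩ <;> omega
      · by_cases a3 : Z < b + 3 * r
        · right; right; right; right; right; right; left
          refine ⟨hb, ?_⟩
          rcases H with ⟨h4, h5, h6⟩ | ⟨h4, h5, h6⟩ <;> omega
        · right; right; right; right; right; right; right; right; right
          refine ⟨hb, ?_⟩
          rcases H with ⟨h4, h5, h6⟩ | ⟨h4, h5, h6⟩ <;> omega
  · by_cases a1 : 3 * r < Z - X
    · by_cases a2 : X < b
      · by_cases a3 : Z - X < hi
        · right; left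
          refine ⟨hb, a1, a3, a2, ?_⟩
          rcases H with ⟨h4, h5, h6⟩ | ⟨h4, h5, h6⟩ <;> omega
        · have a4 := g1 (by omega)
          by_cases a5 : X - Y < 3 * (n + r) - 3
          · right; right; right; left
            refine ⟨hb, ?_⟩
            rcases H with ⟨h4, h5, h6⟩ | ⟨h4, h5, h6⟩ <;> omega
          · right; right; left
            refine ⟨hb, ?_⟩
            rcases H with ⟨h4, h5, h6⟩ | ⟨h4, h5, h6⟩ <;> omega
      · by_cases a3 : b - 3 * r ≤ Y
        · right; right; right; right; right; right; right; right; right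
          refine ⟨hb, ?_⟩
          rcases H with ⟨h4, h5, h6⟩ | ⟨h4, h5, h6⟩ <;> omega
        · by_cases a5 : X - Y < 3 * (n + r) - 3
          · right; right; right; left
            refine ⟨hb, ?_⟩
            rcases H with ⟨h4, h5, h6⟩ | ⟨h4, h5, h6⟩ <;> omega
          · right; right; left
            refine ⟨hb, ?_⟩
            rcases H with ⟨h4, h5, h6⟩ | ⟨h4, h5, h6⟩ <;> omega
    · by_cases a2 : Y < b - 3 * r
      · by_cases a5 : X - Y < 3 * (n + r) - 3
        · right; right; right; left
          refine ⟨hb, ?_⟩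
          rcases H with ⟨h4, h5, h6⟩ | ⟨h4, h5, h6⟩ <;> omega
        · right; right; left
          refine ⟨hb, ?_⟩
          rcases H with ⟨h4, h5, h6⟩ | ⟨h4, h5, h6⟩ <;> omega
      · by_cases a3 : b + 3 * (n - r) + 1 ≤ X
        · by_cases a4 : b + 1 ≤ Y
          · have a6 : (3 * r - 1 - (Y - Z)) % 6 = 0 ∨ (3 * r - 4 - (Y - Z)) % 6 = 0 := by omega
            rcases a6 with a6 | a6
            · right; right; right; right; left
              exact ⟨hb, by omega, a6, by omega, a3⟩
            · right; right; right; right; right; left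
              exact ⟨hb, by omega, a6, by omega, a3⟩
          · by_cases a5 : Y = b
            · have a6 : (3 * r - 1 - (Y - Z)) % 6 = 0 ∨ (3 * r - 4 - (Y - Z)) % 6 = 0 := by
                omega
              rcases a6 with a6 | a6
              · right; right; right; right; left
                exact ⟨hb, by omega, a6, by omega, a3⟩
              · right; right; right; right; right; right; right; left
                refine ⟨hb, ?_, ?_, ?_, ?_, ?_, ?_⟩ <;>
                  rcases H with ⟨h4, h5, h6⟩ | ⟨h4, h5, h6⟩ <;> omega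
            · by_cases a6 : X - Y < 3 * (n + r) - 3
              · by_cases a7 : b + 3 * r + 3 ≤ Z
                · right; right; right; right; right; right; right; right; right
                  refine ⟨hb, ?_⟩
                  rcases H with ⟨h4, h5, h6⟩ | ⟨h4, h5, h6⟩ <;> omega
                · have a8 : (3 * (n + r) - 4 - (X - Y)) % 6 = 0 ∨
                      (3 * (n + r) - 7 - (X - Y)) % 6 = 0 := by omega
                  rcases a8 with a8 | a8
                  · right; right; right; right; right; right; right; left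
                    exact ⟨hb, a6, a8, by omega, by omega, by omega, by omega⟩
                  · right; right; right; right; right; right; right; right; left
                    exact ⟨hb, a6, a8, by omega, by omega, by omega, by omega⟩
              · right; right; left
                refine ⟨hb, ?_⟩
                rcases H with ⟨h4, h5, h6⟩ | ⟨h4, h5, h6⟩ <;> omega
        · by_cases a4 : Z < b + 3 * r
          · right; right; right; right; right; right; left
            refine ⟨hb, ?_⟩
            rcases H with ⟨h4, h5, h6⟩ | ⟨h4, h5, h6⟩ <;> omega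
          · by_cases a5 : X < b + 3 * (n - r) ∨ b + 3 * r + 3 ≤ Z
            · right; right; right; right; right; right; right; right; right
              refine ⟨hb, ?_, ?_, ?_, a5⟩ <;>
                rcases H with ⟨h4, h5, h6⟩ | ⟨h4, h5, h6⟩ <;> omega
            · right; right; right; right; right; right; right; left
              refine ⟨hb, ?_, ?_, ?_, ?_, ?_, ?_⟩ <;>
                rcases H with ⟨h4, h5, h6⟩ | ⟨h4, h5, h6⟩ <;> omega

end Helper64K9.Benzel
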