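import Mathlib

/-!
# Benzels, right stones and bones: the definitions (MP_59b97c_co)
-/

set_option autoImplicit false

namespace Helper64K9.Benzel

/-- A triple `(i, j, k)` of integers stands for the complex number `i + j ω + k ω ^ 2`. -/
abbrev Pt : Type := ℤ × ℤ × ℤ

/-- The centres of the hexagonal cells are the triples with `i + j + k = 1`. A cell is given by
its centre. -/
def IsCell (c : Pt) : Prop := c.1 + c.2.1 + c.2.2 = 1

/-- The cells of the `(a, b)`-benzel. -/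
def benzel (a b : ℤ) : Set Pt :=
  {c | IsCell c ∧ (-(a - 1) ≤ c.2.1 - c.1 ∧ c.2.1 - c.1 ≤ b - 1) ∧
    (-(a - 1) ≤ c.2.2 - c.2.1 ∧ c.2.2 - c.2.1 ≤ b - 1) ∧
    (-(a - 1) ≤ c.1 - c.2.2 ∧ c.1 - c.2.2 ≤ b - 1)}

/-- The three cells of the right stone translated by `t`. -/
def rightStone (t : Pt) : Set Pt := {t + (1, 0, 0), t + (0, 1, 0), t + (0, 0, 1)}

/-- The three cells of the bone with middle cell `c` and direction `v`. -/
def bone (c v : Pt) : Set Pt := {c - v, c, c + v}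

/-- The tiles allowed in a type 103 tiling: the translates of the right stone, and the bones in
the three directions. -/
def IsTile (T : Set Pt) : Prop :=
  (∃ t : Pt, t.1 + t.2.1 + t.2.2 = 0 ∧ T = rightStone t) ∨
    ∃ c : Pt, IsCell c ∧ ∃ v : Pt, (v = (1, -1, 0) ∨ v = (0, 1, -1) ∨ v = (-1, 0, 1)) ∧
      T = bone c v

/-- `𝒯` is a type 103 tiling of the region whose set of cells is `R`. -/
structure IsTiling103 (R : Set Pt) (𝒯 : Set (Set Pt)) : Prop where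
  tile : ∀ T ∈ 𝒯, IsTile T
  sub : ∀ T ∈ 𝒯, T ⊆ R
  cover : ∀ c ∈ R, ∃ T ∈ 𝒯, c ∈ T
  disj : ∀ T ∈ 𝒯, ∀ T' ∈ 𝒯, T ≠ T' → Disjoint T T'

/-- The number `I(a, b)` of the problem file. -/
def clInv (a b : ℤ) : ℚ :=
  if (a + b) % 3 = 0 then
    (3 * (a : ℚ) ^ 2 - 6 * (a : ℚ) * (b : ℚ) + 3 * (b : ℚ) ^ 2 - (a : ℚ) - (b : ℚ)) / 2
  else if (a + b) % 3 = 1 then
    (-(a : ℚ) ^ 2 + 4 * (a : ℚ) * (b : ℚ) - (b : ℚ) ^ 2 - (a : ℚ) - (b : ℚ) + 2) / 2
  else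
    (3 * (a : ℚ) ^ 2 - 6 * (a : ℚ) * (b : ℚ) + 3 * (b : ℚ) ^ 2 + (a : ℚ) + (b : ℚ) - 2) / 2

end Helper64K9.Benzel
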