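import Pool.Agent.Helper64K9.Benzel.Layer

/-!
# Benzels: the centre (MP_59b97c_co)
-/

set_option autoImplicit false

namespace Helper64K9.Benzel

def C2 (A p b r n hi X Y Z : ℤ) : Prop :=
  Box A p X Y Z ∧ 3 * (n + r) - 3 < X - Y ∧ X - Y < hi ∧ b - 1 ≤ X ∧ Y < b

def C3 (A p b r n X Y Z : ℤ) : Prop :=
  Box A p X Y Z ∧ X - Y < 3 * (n + r) - 3 ∧ b - 1 ≤ X ∧ Y < b - 3 * r

def C4 (A p b r n X Y Z : ℤ) : Prop :=
  Box A p X Y Z ∧ Y - Z < 3 * r ∧ (3 * r - 1 - (Y - Z)) % 6 = 0 ∧ b ≤ Y ∧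
    b + 3 * (n - r) + 1 ≤ X

def C5 (A p b r n X Y Z : ℤ) : Prop :=
  Box A p X Y Z ∧ Y - Z < 3 * r ∧ (3 * r - 4 - (Y - Z)) % 6 = 0 ∧ b + 1 ≤ Y ∧
    b + 3 * (n - r) + 1 ≤ X

def C6 (A p b r n X Y Z : ℤ) : Prop :=
  Box A p X Y Z ∧ Z - X < 3 * r ∧ b ≤ Z ∧ X < b + 3 * (n - r) + 1 ∧ Z < b + 3 * r

def C7 (A p b r n X Y Z : ℤ) : Prop :=
  Box A p X Y Z ∧ X - Y < 3 * (n + r) - 3 ∧ (3 * (n + r) - 4 - (X - Y)) % 6 = 0 ∧
    b - 3 * r ≤ Y ∧ Y < b + 1 ∧ Z < b + 3 * r + 3 ∧ b + 3 * (n - r) ≤ X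

def C8 (A p b r n X Y Z : ℤ) : Prop :=
  Box A p X Y Z ∧ X - Y < 3 * (n + r) - 3 ∧ (3 * (n + r) - 7 - (X - Y)) % 6 = 0 ∧
    b - 3 * r ≤ Y ∧ Y < b ∧ Z < b + 3 * r + 3 ∧ b + 3 * (n - r) ≤ X

def C9 (A p b r n X Y Z : ℤ) : Prop :=
  Box A p X Y Z ∧ b ≤ X ∧ b - 3 * r ≤ Y ∧ b + 3 * r ≤ Z ∧
    (X < b + 3 * (n - r) ∨ b + 3 * r + 3 ≤ Z)

/-- The range of the parameters of the centre. -/
def Hyp' (A p b r n hi : ℤ) : Prop := Hyp A p b r n hi ∧ (r < n ∨ (r = 0 ∧ n = 0))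

theorem c2_tile {A p b r n hi : ℤ} (H : Hyp' A p b r n hi) :
    Tileable (reg A (C2 A p b r n hi)) := by
  obtain ⟨⟨h1, h2, h3, H⟩, h0⟩ := H
  apply tileable_two (b - 1)
  intro X Y Z hs hm hf hq
  unfold C2 Box at *
  rcases H with ⟨h4, h5, h6⟩ | ⟨h4, h5, h6⟩
  · rcases hq with hq | hq | hq <;> refine ⟨?_, ?_, ?_⟩ <;> omega
  · rcases hq with hq | hq | hq <;> refine ⟨?_, ?_, ?_⟩ <;> omega

theorem c3_tile {A p b r n hi : ℤ} (H : Hyp' A p b r n hi) :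
    Tileable (reg A (C3 A p b r n)) := by
  obtain ⟨⟨h1, h2, h3, H⟩, h0⟩ := H
  apply tileable_two (b - 1)
  intro X Y Z hs hm hf hq
  unfold C3 Box at *
  rcases H with ⟨h4, h5, h6⟩ | ⟨h4, h5, h6⟩
  · rcases hq with hq | hq | hq <;> refine ⟨?_, ?_, ?_⟩ <;> omega
  · rcases hq with hq | hq | hq <;> refine ⟨?_, ?_, ?_⟩ <;> omega

theorem c4_tile {A p b r n hi : ℤ} (H : Hyp' A p b r n hi) :
    Tileable (reg A (C4 A p b r n)) := by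
  obtain ⟨⟨h1, h2, h3, H⟩, h0⟩ := H
  apply tileable_zero b
  intro X Y Z hs hm hf hq
  unfold C4 Box at *
  rcases H with ⟨h4, h5, h6⟩ | ⟨h4, h5, h6⟩
  · rcases hq with hq | hq | hq <;> refine ⟨?_, ?_, ?_⟩ <;> omega
  · rcases hq with hq | hq | hq <;> refine ⟨?_, ?_, ?_⟩ <;> omega

theorem c5_tile {A p b r n hi : ℤ} (H : Hyp' A p b r n hi) :
    Tileable (reg A (C5 A p b r n)) := by
  obtain ⟨⟨h1, h2, h3, H⟩, h0⟩ := H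
  apply tileable_zero (b + 1)
  intro X Y Z hs hm hf hq
  unfold C5 Box at *
  rcases H with ⟨h4, h5, h6⟩ | ⟨h4, h5, h6⟩
  · rcases hq with hq | hq | hq <;> refine ⟨?_, ?_, ?_⟩ <;> omega
  · rcases hq with hq | hq | hq <;> refine ⟨?_, ?_, ?_⟩ <;> omega

theorem c6_tile {A p b r n hi : ℤ} (H : Hyp' A p b r n hi) :
    Tileable (reg A (C6 A p b r n)) := by
  obtain ⟨⟨h1, h2, h3, H⟩, h0⟩ := H
  apply tileable_one b
  intro X Y Z hs hm hf hq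
  unfold C6 Box at *
  rcases H with ⟨h4, h5, h6⟩ | ⟨h4, h5, h6⟩
  · rcases hq with hq | hq | hq <;> refine ⟨?_, ?_, ?_⟩ <;> omega
  · rcases hq with hq | hq | hq <;> refine ⟨?_, ?_, ?_⟩ <;> omega

theorem c7_tile {A p b r n hi : ℤ} (H : Hyp' A p b r n hi) :
    Tileable (reg A (C7 A p b r n)) := by
  obtain ⟨⟨h1, h2, h3, H⟩, h0⟩ := H
  apply tileable_two b
  intro X Y Z hs hm hf hq
  unfold C7 Box at *
  rcases H with ⟨h4, h5, h6⟩ | ⟨h4, h5, h6⟩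
  · rcases hq with hq | hq | hq <;> refine ⟨?_, ?_, ?_⟩ <;> omega
  · rcases hq with hq | hq | hq <;> refine ⟨?_, ?_, ?_⟩ <;> omega

theorem c8_tile {A p b r n hi : ℤ} (H : Hyp' A p b r n hi) :
    Tileable (reg A (C8 A p b r n)) := by
  obtain ⟨⟨h1, h2, h3, H⟩, h0⟩ := H
  apply tileable_two (b - 1)
  intro X Y Z hs hm hf hq
  unfold C8 Box at *
  rcases H with ⟨h4, h5, h6⟩ | ⟨h4, h5, h6⟩
  · rcases hq with hq | hq | hq <;> refine ⟨?_, ?_, ?_⟩ <;> omega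
  · rcases hq with hq | hq | hq <;> refine ⟨?_, ?_, ?_⟩ <;> omega

theorem c9_tile {A p b r n hi : ℤ} (H : Hyp' A p b r n hi) :
    Tileable (reg A (C9 A p b r n)) := by
  obtain ⟨⟨h1, h2, h3, H⟩, h0⟩ := H
  apply tileable_stone b
  intro X Y Z hs hm hf hg hq
  unfold C9 Box at *
  rcases H with ⟨h4, h5, h6⟩ | ⟨h4, h5, h6⟩
  · rcases hq with hq | hq | hq <;> refine ⟨?_, ?_, ?_⟩ <;> omega
  · rcases hq with hq | hq | hq <;> refine ⟨?_, ?_, ?_⟩ <;> omega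

end Helper64K9.Benzel
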