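import Pool.Agent.Helper64K9.Benzel.Core

/-!
# Benzels: the spiral layers (MP_59b97c_co)
-/

set_option autoImplicit false

namespace Helper64K9.Benzel

/-- The cells of a benzel with `a + b` divisible by three, in the coordinates `X, Y, Z`. -/
def Box (A p X Y Z : ℤ) : Prop :=
  (0 ≤ X ∧ X ≤ 3 * A - 3 * p + 1) ∧ (0 ≤ Y ∧ Y ≤ 3 * A - 3 * p + 1) ∧
    0 ≤ Z ∧ Z ≤ 3 * A - 3 * p + 1

/-- The union of the outer layers. -/
def Out (A p c hi X Y Z : ℤ) : Prop :=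
  Box A p X Y Z ∧ ((hi < Y - Z ∧ Z < c) ∨ (hi < Z - X ∧ X < c) ∨ (hi < X - Y ∧ Y < c))

/-- The relation between the parameters of a layer. -/
def Hyp (A p b r n hi : ℤ) : Prop :=
  b + n = A ∧ 0 ≤ r ∧ 0 ≤ n ∧
    ((hi = 3 * (r + n + 1) ∧ 3 * p < b ∧ r + n + 1 ≤ p) ∨
      (hi = 3 * A + 3 * p + 3 ∧ b = 3 * p ∧ r = p))

theorem layer_zero {A p b r n hi : ℤ} (H : Hyp A p b r n hi) :
    Tileable (reg A fun X Y Z => Box A p X Y Z ∧ 3 * r < Y - Z ∧ Y - Z < hi ∧ Z < b ∧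
      b - 1 ≤ Y) := by
  obtain ⟨h1, h2, h3, H⟩ := H
  apply tileable_zero (b - 1)
  intro X Y Z hs hm hf hq
  unfold Box at *
  rcases H with ⟨h4, h5, h6⟩ | ⟨h4, h5, h6⟩
  · rcases hq with hq | hq | hq <;> refine ⟨?_, ?_, ?_⟩ <;> omega
  · rcases hq with hq | hq | hq <;> refine ⟨?_, ?_, ?_⟩ <;> omega

theorem layer_one {A p b r n hi : ℤ} (H : Hyp A p b r n hi) :
    Tileable (reg A fun X Y Z => Box A p X Y Z ∧ 3 * r < Z - X ∧ Z - X < hi ∧ X < b ∧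
      b - 1 ≤ Z) := by
  obtain ⟨h1, h2, h3, H⟩ := H
  apply tileable_one (b - 1)
  intro X Y Z hs hm hf hq
  unfold Box at *
  rcases H with ⟨h4, h5, h6⟩ | ⟨h4, h5, h6⟩
  · rcases hq with hq | hq | hq <;> refine ⟨?_, ?_, ?_⟩ <;> omega
  · rcases hq with hq | hq | hq <;> refine ⟨?_, ?_, ?_⟩ <;> omega

theorem layer_two {A p b r n hi : ℤ} (H : Hyp A p b r n hi) :
    Tileable (reg A fun X Y Z => Box A p X Y Z ∧ 3 * r < X - Y ∧ X - Y < hi ∧ Y < b ∧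
      b - 1 ≤ X) := by
  obtain ⟨h1, h2, h3, H⟩ := H
  apply tileable_two (b - 1)
  intro X Y Z hs hm hf hq
  unfold Box at *
  rcases H with ⟨h4, h5, h6⟩ | ⟨h4, h5, h6⟩
  · rcases hq with hq | hq | hq <;> refine ⟨?_, ?_, ?_⟩ <;> omega
  · rcases hq with hq | hq | hq <;> refine ⟨?_, ?_, ?_⟩ <;> omega

/-- One more layer. -/
theorem layer_step {A p b r n hi : ℤ} (H : Hyp A p b r n hi) (hn : n ≤ r)
    (hT : Tileable (reg A (Out A p (b - 1) hi))) : Tileable (reg A (Out A p b (3 * r))) := by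
  have H0 := layer_zero H
  have H1 := layer_one H
  have H2 := layer_two H
  obtain ⟨h1, h2, h3, H⟩ := H
  have T1 : Tileable (reg A fun X Y Z => (Box A p X Y Z ∧ 3 * r < Y - Z ∧ Y - Z < hi ∧ Z < b ∧
      b - 1 ≤ Y) ∨ (Box A p X Y Z ∧ 3 * r < Z - X ∧ Z - X < hi ∧ X < b ∧ b - 1 ≤ Z)) := by
    refine tileable_or H0 H1 ?_ (fun _ _ _ _ _ => Iff.rfl)
    intro X Y Z hs hm q1 q2
    unfold Box at *
    rcases H with ⟨h4, h5, h6⟩ | ⟨h4, h5, h6⟩ <;> omega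
  have T2 : Tileable (reg A fun X Y Z => ((Box A p X Y Z ∧ 3 * r < Y - Z ∧ Y - Z < hi ∧ Z < b ∧
      b - 1 ≤ Y) ∨ (Box A p X Y Z ∧ 3 * r < Z - X ∧ Z - X < hi ∧ X < b ∧ b - 1 ≤ Z)) ∨
      (Box A p X Y Z ∧ 3 * r < X - Y ∧ X - Y < hi ∧ Y < b ∧ b - 1 ≤ X)) := by
    refine tileable_or T1 H2 ?_ (fun _ _ _ _ _ => Iff.rfl)
    intro X Y Z hs hm q1 q2
    unfold Box at *
    rcases H with ⟨h4, h5, h6⟩ | ⟨h4, h5, h6⟩ <;> rcases q1 with q1 | q1 <;> omega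
  refine tileable_or hT T2 ?_ ?_
  · intro X Y Z hs hm q1 q2
    unfold Out Box at *
    rcases H with ⟨h4, h5, h6⟩ | ⟨h4, h5, h6⟩ <;> rcases q1 with ⟨q0, q1 | q1 | q1⟩ <;>
      rcases q2 with (q2 | q2) | q2 <;> omega
  · intro X Y Z hs hm
    unfold Out
    constructor
    · rintro ⟨q0, q⟩
      by_cases q1 : (hi < Y - Z ∧ Z < b - 1) ∨ (hi < Z - X ∧ X < b - 1) ∨ (hi < X - Y ∧ Y < b - 1)
      · exact Or.inl ⟨q0, q1⟩
      · right
        have q0' := q0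
        unfold Box at q0
        push Not at q1
        obtain ⟨g0, g1, g2⟩ := q1
        rcases q with q | q | q
        · by_cases c1 : hi < Y - Z
          · have := g0 c1
            left; right
            refine ⟨q0', ?_⟩
            rcases H with ⟨h4, h5, h6⟩ | ⟨h4, h5, h6⟩ <;> omega
          · left; left
            refine ⟨q0', ?_⟩
            rcases H with ⟨h4, h5, h6⟩ | ⟨h4, h5, h6⟩ <;> omega
        · by_cases c1 : hi < Z - X
          · have := g1 c1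
            right
            refine ⟨q0', ?_⟩
            rcases H with ⟨h4, h5, h6⟩ | ⟨h4, h5, h6⟩ <;> omega
          · left; right
            refine ⟨q0', ?_⟩
            rcases H with ⟨h4, h5, h6⟩ | ⟨h4, h5, h6⟩ <;> omega
        · by_cases c1 : hi < X - Y
          · have := g2 c1
            left; left
            refine ⟨q0', ?_⟩
            rcases H with ⟨h4, h5, h6⟩ | ⟨h4, h5, h6⟩ <;> omega
          · right
            refine ⟨q0', ?_⟩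
            rcases H with ⟨h4, h5, h6⟩ | ⟨h4, h5, h6⟩ <;> omega
    · rintro (⟨q0, q1⟩ | (⟨q0, q1⟩ | ⟨q0, q1⟩) | ⟨q0, q1⟩)
      · refine ⟨q0, ?_⟩
        rcases H with ⟨h4, h5, h6⟩ | ⟨h4, h5, h6⟩ <;> omega
      · refine ⟨q0, ?_⟩
        omega
      · refine ⟨q0, ?_⟩
        omega
      · refine ⟨q0, ?_⟩
        omega

end Helper64K9.Benzel
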