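import Pool.Agent.Helper64K9.Benzel.Core

/-!
# Benzels with `a + b = 2` modulo three (MP_59b97c_co)
-/

set_option autoImplicit false

namespace Helper64K9.Benzel

/-- The cells of a benzel with `a + b = 2` modulo three, in the coordinates `X, Y, Z`. -/
def Box2 (p d X Y Z : ℤ) : Prop :=
  (0 ≤ X ∧ X ≤ 6 * p + 3 * d) ∧ (0 ≤ Y ∧ Y ≤ 6 * p + 3 * d) ∧ 0 ≤ Z ∧ Z ≤ 6 * p + 3 * d

def K0 (p d X Y Z : ℤ) : Prop :=
  Box2 p d X Y Z ∧ Y < 3 * p ∧ Y - Z < -(3 * p)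

def K1 (p d X Y Z : ℤ) : Prop :=
  Box2 p d X Y Z ∧ Z < 3 * p ∧ Z - X < -(3 * p)

def K2 (p d X Y Z : ℤ) : Prop :=
  Box2 p d X Y Z ∧ X < 3 ∧ 3 * p ≤ Y ∧ 3 * p ≤ Z

def K3 (p d X Y Z : ℤ) : Prop :=
  Box2 p d X Y Z ∧ 3 ≤ X ∧ 3 * p ≤ Y ∧ 6 * p ≤ Z

def K4 (p d X Y Z : ℤ) : Prop :=
  Box2 p d X Y Z ∧ 3 ≤ X ∧ 3 * p ≤ Z ∧ Z < 6 * p ∧ -(3 * p) < Y - Z ∧ Y - Z < 3 * d - 3 * p

def K5 (p d X Y Z : ℤ) : Prop :=
  Box2 p d X Y Z ∧ -(3 * p) < Z - X ∧ Z < 3 * p + 1 ∧ (Z - X + 3 * p - 2) % 6 = 0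

def K6 (p d X Y Z : ℤ) : Prop :=
  Box2 p d X Y Z ∧ -(3 * p) < Z - X ∧ Z < 3 * p ∧ (Z - X + 3 * p - 5) % 6 = 0

def K7 (p d X Y Z : ℤ) : Prop :=
  Box2 p d X Y Z ∧ 3 ≤ X ∧ 3 * p + 1 ≤ Z ∧ 3 * d - 3 * p < Y - Z ∧ (Y - Z - 3 * d + 3 * p - 2) % 6 = 0

def K8 (p d X Y Z : ℤ) : Prop :=
  Box2 p d X Y Z ∧ 3 ≤ X ∧ 3 * p ≤ Z ∧ 3 * d - 3 * p < Y - Z ∧ (Y - Z - 3 * d + 3 * p - 5) % 6 = 0

theorem k0_tile {p d : ℤ} (hp : 0 ≤ p) (hd : 0 ≤ d) :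
    Tileable (reg (3 * p + d) (K0 p d)) := by
  apply tileable_zero 0
  intro X Y Z hs hm hf hq
  unfold K0 Box2 at *
  rcases hq with hq | hq | hq <;> refine ⟨?_, ?_, ?_⟩ <;> omega

theorem k1_tile {p d : ℤ} (hp : 0 ≤ p) (hd : 0 ≤ d) :
    Tileable (reg (3 * p + d) (K1 p d)) := by
  apply tileable_one 0
  intro X Y Z hs hm hf hq
  unfold K1 Box2 at *
  rcases hq with hq | hq | hq <;> refine ⟨?_, ?_, ?_⟩ <;> omega

theorem k2_tile {p d : ℤ} (hp : 0 ≤ p) (hd : 0 ≤ d) :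
    Tileable (reg (3 * p + d) (K2 p d)) := by
  apply tileable_stone 0
  intro X Y Z hs hm hf hg hq
  unfold K2 Box2 at *
  rcases hq with hq | hq | hq <;> refine ⟨?_, ?_, ?_⟩ <;> omega

theorem k3_tile {p d : ℤ} (hp : 0 ≤ p) (hd : 0 ≤ d) :
    Tileable (reg (3 * p + d) (K3 p d)) := by
  apply tileable_stone 0
  intro X Y Z hs hm hf hg hq
  unfold K3 Box2 at *
  rcases hq with hq | hq | hq <;> refine ⟨?_, ?_, ?_⟩ <;> omega

theorem k4_tile {p d : ℤ} (hp : 0 ≤ p) (hd : 0 ≤ d) :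
    Tileable (reg (3 * p + d) (K4 p d)) := by
  apply tileable_zero 2
  intro X Y Z hs hm hf hq
  unfold K4 Box2 at *
  rcases hq with hq | hq | hq <;> refine ⟨?_, ?_, ?_⟩ <;> omega

theorem k5_tile {p d : ℤ} (hp : 0 ≤ p) (hd : 0 ≤ d) :
    Tileable (reg (3 * p + d) (K5 p d)) := by
  apply tileable_one 1
  intro X Y Z hs hm hf hq
  unfold K5 Box2 at *
  rcases hq with hq | hq | hq <;> refine ⟨?_, ?_, ?_⟩ <;> omega

theorem k6_tile {p d : ℤ} (hp : 0 ≤ p) (hd : 0 ≤ d) :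
    Tileable (reg (3 * p + d) (K6 p d)) := by
  apply tileable_one 0
  intro X Y Z hs hm hf hq
  unfold K6 Box2 at *
  rcases hq with hq | hq | hq <;> refine ⟨?_, ?_, ?_⟩ <;> omega

theorem k7_tile {p d : ℤ} (hp : 0 ≤ p) (hd : 0 ≤ d) :
    Tileable (reg (3 * p + d) (K7 p d)) := by
  apply tileable_zero 0
  intro X Y Z hs hm hf hq
  unfold K7 Box2 at *
  rcases hq with hq | hq | hq <;> refine ⟨?_, ?_, ?_⟩ <;> omega

theorem k8_tile {p d : ℤ} (hp : 0 ≤ p) (hd : 0 ≤ d) :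
    Tileable (reg (3 * p + d) (K8 p d)) := by
  apply tileable_zero 2
  intro X Y Z hs hm hf hq
  unfold K8 Box2 at *
  rcases hq with hq | hq | hq <;> refine ⟨?_, ?_, ?_⟩ <;> omega

theorem kd01 {p d X Y Z : ℤ} (hp : 0 ≤ p) (hd : 0 ≤ d) (hs : X + Y + Z = 3 * (3 * p + d))
    (hm : (X - Y) % 3 = 2) (q1 : K0 p d X Y Z) (q2 : K1 p d X Y Z) : False := by
  unfold K0 Box2 at q1
  unfold K1 Box2 at q2
  omega

theorem kd02 {p d X Y Z : ℤ} (hp : 0 ≤ p) (hd : 0 ≤ d) (hs : X + Y + Z = 3 * (3 * p + d))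
    (hm : (X - Y) % 3 = 2) (q1 : K0 p d X Y Z) (q2 : K2 p d X Y Z) : False := by
  unfold K0 Box2 at q1
  unfold K2 Box2 at q2
  omega

theorem kd03 {p d X Y Z : ℤ} (hp : 0 ≤ p) (hd : 0 ≤ d) (hs : X + Y + Z = 3 * (3 * p + d))
    (hm : (X - Y) % 3 = 2) (q1 : K0 p d X Y Z) (q2 : K3 p d X Y Z) : False := by
  unfold K0 Box2 at q1
  unfold K3 Box2 at q2
  omega

theorem kd04 {p d X Y Z : ℤ} (hp : 0 ≤ p) (hd : 0 ≤ d) (hs : X + Y + Z = 3 * (3 * p + d))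
    (hm : (X - Y) % 3 = 2) (q1 : K0 p d X Y Z) (q2 : K4 p d X Y Z) : False := by
  unfold K0 Box2 at q1
  unfold K4 Box2 at q2
  omega

theorem kd05 {p d X Y Z : ℤ} (hp : 0 ≤ p) (hd : 0 ≤ d) (hs : X + Y + Z = 3 * (3 * p + d))
    (hm : (X - Y) % 3 = 2) (q1 : K0 p d X Y Z) (q2 : K5 p d X Y Z) : False := by
  unfold K0 Box2 at q1
  unfold K5 Box2 at q2
  omega

theorem kd06 {p d X Y Z : ℤ} (hp : 0 ≤ p) (hd : 0 ≤ d) (hs : X + Y + Z = 3 * (3 * p + d))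
    (hm : (X - Y) % 3 = 2) (q1 : K0 p d X Y Z) (q2 : K6 p d X Y Z) : False := by
  unfold K0 Box2 at q1
  unfold K6 Box2 at q2
  omega

theorem kd07 {p d X Y Z : ℤ} (hp : 0 ≤ p) (hd : 0 ≤ d) (hs : X + Y + Z = 3 * (3 * p + d))
    (hm : (X - Y) % 3 = 2) (q1 : K0 p d X Y Z) (q2 : K7 p d X Y Z) : False := by
  unfold K0 Box2 at q1
  unfold K7 Box2 at q2
  omega

theorem kd08 {p d X Y Z : ℤ} (hp : 0 ≤ p) (hd : 0 ≤ d) (hs : X + Y + Z = 3 * (3 * p + d))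
    (hm : (X - Y) % 3 = 2) (q1 : K0 p d X Y Z) (q2 : K8 p d X Y Z) : False := by
  unfold K0 Box2 at q1
  unfold K8 Box2 at q2
  omega

theorem kd12 {p d X Y Z : ℤ} (hp : 0 ≤ p) (hd : 0 ≤ d) (hs : X + Y + Z = 3 * (3 * p + d))
    (hm : (X - Y) % 3 = 2) (q1 : K1 p d X Y Z) (q2 : K2 p d X Y Z) : False := by
  unfold K1 Box2 at q1
  unfold K2 Box2 at q2
  omega

theorem kd13 {p d X Y Z : ℤ} (hp : 0 ≤ p) (hd : 0 ≤ d) (hs : X + Y + Z = 3 * (3 * p + d))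
    (hm : (X - Y) % 3 = 2) (q1 : K1 p d X Y Z) (q2 : K3 p d X Y Z) : False := by
  unfold K1 Box2 at q1
  unfold K3 Box2 at q2
  omega

theorem kd14 {p d X Y Z : ℤ} (hp : 0 ≤ p) (hd : 0 ≤ d) (hs : X + Y + Z = 3 * (3 * p + d))
    (hm : (X - Y) % 3 = 2) (q1 : K1 p d X Y Z) (q2 : K4 p d X Y Z) : False := by
  unfold K1 Box2 at q1
  unfold K4 Box2 at q2
  omega

theorem kd15 {p d X Y Z : ℤ} (hp : 0 ≤ p) (hd : 0 ≤ d) (hs : X + Y + Z = 3 * (3 * p + d))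
    (hm : (X - Y) % 3 = 2) (q1 : K1 p d X Y Z) (q2 : K5 p d X Y Z) : False := by
  unfold K1 Box2 at q1
  unfold K5 Box2 at q2
  omega

theorem kd16 {p d X Y Z : ℤ} (hp : 0 ≤ p) (hd : 0 ≤ d) (hs : X + Y + Z = 3 * (3 * p + d))
    (hm : (X - Y) % 3 = 2) (q1 : K1 p d X Y Z) (q2 : K6 p d X Y Z) : False := by
  unfold K1 Box2 at q1
  unfold K6 Box2 at q2
  omega

theorem kd17 {p d X Y Z : ℤ} (hp : 0 ≤ p) (hd : 0 ≤ d) (hs : X + Y + Z = 3 * (3 * p + d))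
    (hm : (X - Y) % 3 = 2) (q1 : K1 p d X Y Z) (q2 : K7 p d X Y Z) : False := by
  unfold K1 Box2 at q1
  unfold K7 Box2 at q2
  omega

theorem kd18 {p d X Y Z : ℤ} (hp : 0 ≤ p) (hd : 0 ≤ d) (hs : X + Y + Z = 3 * (3 * p + d))
    (hm : (X - Y) % 3 = 2) (q1 : K1 p d X Y Z) (q2 : K8 p d X Y Z) : False := by
  unfold K1 Box2 at q1
  unfold K8 Box2 at q2
  omega

theorem kd23 {p d X Y Z : ℤ} (hp : 0 ≤ p) (hd : 0 ≤ d) (hs : X + Y + Z = 3 * (3 * p + d))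
    (hm : (X - Y) % 3 = 2) (q1 : K2 p d X Y Z) (q2 : K3 p d X Y Z) : False := by
  unfold K2 Box2 at q1
  unfold K3 Box2 at q2
  omega

theorem kd24 {p d X Y Z : ℤ} (hp : 0 ≤ p) (hd : 0 ≤ d) (hs : X + Y + Z = 3 * (3 * p + d))
    (hm : (X - Y) % 3 = 2) (q1 : K2 p d X Y Z) (q2 : K4 p d X Y Z) : False := by
  unfold K2 Box2 at q1
  unfold K4 Box2 at q2
  omega

theorem kd25 {p d X Y Z : ℤ} (hp : 0 ≤ p) (hd : 0 ≤ d) (hs : X + Y + Z = 3 * (3 * p + d))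
    (hm : (X - Y) % 3 = 2) (q1 : K2 p d X Y Z) (q2 : K5 p d X Y Z) : False := by
  unfold K2 Box2 at q1
  unfold K5 Box2 at q2
  omega

theorem kd26 {p d X Y Z : ℤ} (hp : 0 ≤ p) (hd : 0 ≤ d) (hs : X + Y + Z = 3 * (3 * p + d))
    (hm : (X - Y) % 3 = 2) (q1 : K2 p d X Y Z) (q2 : K6 p d X Y Z) : False := by
  unfold K2 Box2 at q1
  unfold K6 Box2 at q2
  omega

theorem kd27 {p d X Y Z : ℤ} (hp : 0 ≤ p) (hd : 0 ≤ d) (hs : X + Y + Z = 3 * (3 * p + d))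
    (hm : (X - Y) % 3 = 2) (q1 : K2 p d X Y Z) (q2 : K7 p d X Y Z) : False := by
  unfold K2 Box2 at q1
  unfold K7 Box2 at q2
  omega

theorem kd28 {p d X Y Z : ℤ} (hp : 0 ≤ p) (hd : 0 ≤ d) (hs : X + Y + Z = 3 * (3 * p + d))
    (hm : (X - Y) % 3 = 2) (q1 : K2 p d X Y Z) (q2 : K8 p d X Y Z) : False := by
  unfold K2 Box2 at q1
  unfold K8 Box2 at q2
  omega

theorem kd34 {p d X Y Z : ℤ} (hp : 0 ≤ p) (hd : 0 ≤ d) (hs : X + Y + Z = 3 * (3 * p + d))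
    (hm : (X - Y) % 3 = 2) (q1 : K3 p d X Y Z) (q2 : K4 p d X Y Z) : False := by
  unfold K3 Box2 at q1
  unfold K4 Box2 at q2
  omega

theorem kd35 {p d X Y Z : ℤ} (hp : 0 ≤ p) (hd : 0 ≤ d) (hs : X + Y + Z = 3 * (3 * p + d))
    (hm : (X - Y) % 3 = 2) (q1 : K3 p d X Y Z) (q2 : K5 p d X Y Z) : False := by
  unfold K3 Box2 at q1
  unfold K5 Box2 at q2
  omega

theorem kd36 {p d X Y Z : ℤ} (hp : 0 ≤ p) (hd : 0 ≤ d) (hs : X + Y + Z = 3 * (3 * p + d))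
    (hm : (X - Y) % 3 = 2) (q1 : K3 p d X Y Z) (q2 : K6 p d X Y Z) : False := by
  unfold K3 Box2 at q1
  unfold K6 Box2 at q2
  omega

theorem kd37 {p d X Y Z : ℤ} (hp : 0 ≤ p) (hd : 0 ≤ d) (hs : X + Y + Z = 3 * (3 * p + d))
    (hm : (X - Y) % 3 = 2) (q1 : K3 p d X Y Z) (q2 : K7 p d X Y Z) : False := by
  unfold K3 Box2 at q1
  unfold K7 Box2 at q2
  omega

theorem kd38 {p d X Y Z : ℤ} (hp : 0 ≤ p) (hd : 0 ≤ d) (hs : X + Y + Z = 3 * (3 * p + d))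
    (hm : (X - Y) % 3 = 2) (q1 : K3 p d X Y Z) (q2 : K8 p d X Y Z) : False := by
  unfold K3 Box2 at q1
  unfold K8 Box2 at q2
  omega

theorem kd45 {p d X Y Z : ℤ} (hp : 0 ≤ p) (hd : 0 ≤ d) (hs : X + Y + Z = 3 * (3 * p + d))
    (hm : (X - Y) % 3 = 2) (q1 : K4 p d X Y Z) (q2 : K5 p d X Y Z) : False := by
  unfold K4 Box2 at q1
  unfold K5 Box2 at q2
  omega

theorem kd46 {p d X Y Z : ℤ} (hp : 0 ≤ p) (hd : 0 ≤ d) (hs : X + Y + Z = 3 * (3 * p + d))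
    (hm : (X - Y) % 3 = 2) (q1 : K4 p d X Y Z) (q2 : K6 p d X Y Z) : False := by
  unfold K4 Box2 at q1
  unfold K6 Box2 at q2
  omega

theorem kd47 {p d X Y Z : ℤ} (hp : 0 ≤ p) (hd : 0 ≤ d) (hs : X + Y + Z = 3 * (3 * p + d))
    (hm : (X - Y) % 3 = 2) (q1 : K4 p d X Y Z) (q2 : K7 p d X Y Z) : False := by
  unfold K4 Box2 at q1
  unfold K7 Box2 at q2
  omega

theorem kd48 {p d X Y Z : ℤ} (hp : 0 ≤ p) (hd : 0 ≤ d) (hs : X + Y + Z = 3 * (3 * p + d))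
    (hm : (X - Y) % 3 = 2) (q1 : K4 p d X Y Z) (q2 : K8 p d X Y Z) : False := by
  unfold K4 Box2 at q1
  unfold K8 Box2 at q2
  omega

theorem kd56 {p d X Y Z : ℤ} (hp : 0 ≤ p) (hd : 0 ≤ d) (hs : X + Y + Z = 3 * (3 * p + d))
    (hm : (X - Y) % 3 = 2) (q1 : K5 p d X Y Z) (q2 : K6 p d X Y Z) : False := by
  unfold K5 Box2 at q1
  unfold K6 Box2 at q2
  omega

theorem kd57 {p d X Y Z : ℤ} (hp : 0 ≤ p) (hd : 0 ≤ d) (hs : X + Y + Z = 3 * (3 * p + d))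
    (hm : (X - Y) % 3 = 2) (q1 : K5 p d X Y Z) (q2 : K7 p d X Y Z) : False := by
  unfold K5 Box2 at q1
  unfold K7 Box2 at q2
  omega

theorem kd58 {p d X Y Z : ℤ} (hp : 0 ≤ p) (hd : 0 ≤ d) (hs : X + Y + Z = 3 * (3 * p + d))
    (hm : (X - Y) % 3 = 2) (q1 : K5 p d X Y Z) (q2 : K8 p d X Y Z) : False := by
  unfold K5 Box2 at q1
  unfold K8 Box2 at q2
  omega

theorem kd67 {p d X Y Z : ℤ} (hp : 0 ≤ p) (hd : 0 ≤ d) (hs : X + Y + Z = 3 * (3 * p + d))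
    (hm : (X - Y) % 3 = 2) (q1 : K6 p d X Y Z) (q2 : K7 p d X Y Z) : False := by
  unfold K6 Box2 at q1
  unfold K7 Box2 at q2
  omega

theorem kd68 {p d X Y Z : ℤ} (hp : 0 ≤ p) (hd : 0 ≤ d) (hs : X + Y + Z = 3 * (3 * p + d))
    (hm : (X - Y) % 3 = 2) (q1 : K6 p d X Y Z) (q2 : K8 p d X Y Z) : False := by
  unfold K6 Box2 at q1
  unfold K8 Box2 at q2
  omega

theorem kd78 {p d X Y Z : ℤ} (hp : 0 ≤ p) (hd : 0 ≤ d) (hs : X + Y + Z = 3 * (3 * p + d))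
    (hm : (X - Y) % 3 = 2) (q1 : K7 p d X Y Z) (q2 : K8 p d X Y Z) : False := by
  unfold K7 Box2 at q1
  unfold K8 Box2 at q2
  omega

theorem k_cover {p d X Y Z : ℤ} (hp : 0 ≤ p) (hd : 0 ≤ d) (hs : X + Y + Z = 3 * (3 * p + d))
    (hm : (X - Y) % 3 = 2) (hq : Box2 p d X Y Z) :
    K0 p d X Y Z ∨ K1 p d X Y Z ∨ K2 p d X Y Z ∨ K3 p d X Y Z ∨ K4 p d X Y Z ∨ K5 p d X Y Z ∨ K6 p d X Y Z ∨ K7 p d X Y Z ∨ K8 p d X Y Z := by
  have hb := hq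
  unfold Box2 at hb
  by_cases a0 : Y < 3 * p ∧ Y - Z < -(3 * p)
  · left
    exact ⟨hq, a0⟩
  · by_cases a1 : Z < 3 * p
    · by_cases a2 : Z - X < -(3 * p)
      · right; left
        exact ⟨hq, a1, a2⟩
      · have a3 : (Z - X + 3 * p - 2) % 6 = 0 ∨ (Z - X + 3 * p - 5) % 6 = 0 := by omega
        rcases a3 with a3 | a3
        · right; right; right; right; right; left
          exact ⟨hq, by omega, by omega, a3⟩
        · right; right; right; right; right; right; left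
          exact ⟨hq, by omega, by omega, a3⟩
    · by_cases a2 : X < 3
      · right; right; left
        exact ⟨hq, a2, by omega, by omega⟩
      · by_cases a3 : 6 * p ≤ Z
        · right; right; right; left
          exact ⟨hq, by omega, by omega, a3⟩
        · by_cases a4 : Y - Z < 3 * d - 3 * p
          · right; right; right; right; left
            exact ⟨hq, by omega, by omega, by omega, by omega, a4⟩
          · have a5 : (Y - Z - 3 * d + 3 * p - 2) % 6 = 0 ∨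
                (Y - Z - 3 * d + 3 * p - 5) % 6 = 0 := by omega
            rcases a5 with a5 | a5
            · by_cases a6 : Z = 3 * p
              · right; right; right; right; right; left
                exact ⟨hq, by omega, by omega, by omega⟩
              · right; right; right; right; right; right; right; left
                exact ⟨hq, by omega, by omega, by omega, a5⟩
            · right; right; right; right; right; right; right; right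
              exact ⟨hq, by omega, by omega, by omega, a5⟩

theorem box2_tileable {p d : ℤ} (hp : 0 ≤ p) (hd : 0 ≤ d) :
    Tileable (reg (3 * p + d) (Box2 p d)) := by
  have t8 := k8_tile hp hd
  have t7 : Tileable (reg (3 * p + d) fun X Y Z =>
        K7 p d X Y Z ∨ K8 p d X Y Z) := by
    refine tileable_or (k7_tile hp hd) t8 ?_ (fun _ _ _ _ _ => Iff.rfl)
    intro X Y Z hs hm q1 q2
    exact kd78 hp hd hs hm q1 q2
  have t6 : Tileable (reg (3 * p + d) fun X Y Z =>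
        K6 p d X Y Z ∨ K7 p d X Y Z ∨ K8 p d X Y Z) := by
    refine tileable_or (k6_tile hp hd) t7 ?_ (fun _ _ _ _ _ => Iff.rfl)
    intro X Y Z hs hm q1 q2
    rcases q2 with q2 | q2
    · exact kd67 hp hd hs hm q1 q2
    · exact kd68 hp hd hs hm q1 q2
  have t5 : Tileable (reg (3 * p + d) fun X Y Z =>
        K5 p d X Y Z ∨ K6 p d X Y Z ∨ K7 p d X Y Z ∨ K8 p d X Y Z) := by
    refine tileable_or (k5_tile hp hd) t6 ?_ (fun _ _ _ _ _ => Iff.rfl)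
    intro X Y Z hs hm q1 q2
    rcases q2 with q2 | q2 | q2
    · exact kd56 hp hd hs hm q1 q2
    · exact kd57 hp hd hs hm q1 q2
    · exact kd58 hp hd hs hm q1 q2
  have t4 : Tileable (reg (3 * p + d) fun X Y Z =>
        K4 p d X Y Z ∨ K5 p d X Y Z ∨ K6 p d X Y Z ∨ K7 p d X Y Z ∨ K8 p d X Y Z) := by
    refine tileable_or (k4_tile hp hd) t5 ?_ (fun _ _ _ _ _ => Iff.rfl)
    intro X Y Z hs hm q1 q2
    rcases q2 with q2 | q2 | q2 | q2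
    · exact kd45 hp hd hs hm q1 q2
    · exact kd46 hp hd hs hm q1 q2
    · exact kd47 hp hd hs hm q1 q2
    · exact kd48 hp hd hs hm q1 q2
  have t3 : Tileable (reg (3 * p + d) fun X Y Z =>
        K3 p d X Y Z ∨ K4 p d X Y Z ∨ K5 p d X Y Z ∨ K6 p d X Y Z ∨ K7 p d X Y Z ∨ K8 p d X Y Z) := by
    refine tileable_or (k3_tile hp hd) t4 ?_ (fun _ _ _ _ _ => Iff.rfl)
    intro X Y Z hs hm q1 q2
    rcases q2 with q2 | q2 | q2 | q2 | q2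
    · exact kd34 hp hd hs hm q1 q2
    · exact kd35 hp hd hs hm q1 q2
    · exact kd36 hp hd hs hm q1 q2
    · exact kd37 hp hd hs hm q1 q2
    · exact kd38 hp hd hs hm q1 q2
  have t2 : Tileable (reg (3 * p + d) fun X Y Z =>
        K2 p d X Y Z ∨ K3 p d X Y Z ∨ K4 p d X Y Z ∨ K5 p d X Y Z ∨ K6 p d X Y Z ∨ K7 p d X Y Z ∨ K8 p d X Y Z) := by
    refine tileable_or (k2_tile hp hd) t3 ?_ (fun _ _ _ _ _ => Iff.rfl)
    intro X Y Z hs hm q1 q2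
    rcases q2 with q2 | q2 | q2 | q2 | q2 | q2
    · exact kd23 hp hd hs hm q1 q2
    · exact kd24 hp hd hs hm q1 q2
    · exact kd25 hp hd hs hm q1 q2
    · exact kd26 hp hd hs hm q1 q2
    · exact kd27 hp hd hs hm q1 q2
    · exact kd28 hp hd hs hm q1 q2
  have t1 : Tileable (reg (3 * p + d) fun X Y Z =>
        K1 p d X Y Z ∨ K2 p d X Y Z ∨ K3 p d X Y Z ∨ K4 p d X Y Z ∨ K5 p d X Y Z ∨ K6 p d X Y Z ∨ K7 p d X Y Z ∨ K8 p d X Y Z) := by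
    refine tileable_or (k1_tile hp hd) t2 ?_ (fun _ _ _ _ _ => Iff.rfl)
    intro X Y Z hs hm q1 q2
    rcases q2 with q2 | q2 | q2 | q2 | q2 | q2 | q2
    · exact kd12 hp hd hs hm q1 q2
    · exact kd13 hp hd hs hm q1 q2
    · exact kd14 hp hd hs hm q1 q2
    · exact kd15 hp hd hs hm q1 q2
    · exact kd16 hp hd hs hm q1 q2
    · exact kd17 hp hd hs hm q1 q2
    · exact kd18 hp hd hs hm q1 q2
  have t0 : Tileable (reg (3 * p + d) fun X Y Z =>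
        K0 p d X Y Z ∨ K1 p d X Y Z ∨ K2 p d X Y Z ∨ K3 p d X Y Z ∨ K4 p d X Y Z ∨ K5 p d X Y Z ∨ K6 p d X Y Z ∨ K7 p d X Y Z ∨ K8 p d X Y Z) := by
    refine tileable_or (k0_tile hp hd) t1 ?_ (fun _ _ _ _ _ => Iff.rfl)
    intro X Y Z hs hm q1 q2
    rcases q2 with q2 | q2 | q2 | q2 | q2 | q2 | q2 | q2
    · exact kd01 hp hd hs hm q1 q2
    · exact kd02 hp hd hs hm q1 q2
    · exact kd03 hp hd hs hm q1 q2
    · exact kd04 hp hd hs hm q1 q2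
    · exact kd05 hp hd hs hm q1 q2
    · exact kd06 hp hd hs hm q1 q2
    · exact kd07 hp hd hs hm q1 q2
    · exact kd08 hp hd hs hm q1 q2
  rw [reg_congr (Q' := fun X Y Z =>
        K0 p d X Y Z ∨ K1 p d X Y Z ∨ K2 p d X Y Z ∨ K3 p d X Y Z ∨ K4 p d X Y Z ∨ K5 p d X Y Z ∨ K6 p d X Y Z ∨ K7 p d X Y Z ∨ K8 p d X Y Z)]
  · exact t0
  · intro X Y Z hs hm
    constructor
    · exact k_cover hp hd hs hm
    · intro q
      rcases q with q | q | q | q | q | q | q | q | q <;> exact q.1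

end Helper64K9.Benzel
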