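import Pool.Agent.Helper64K9.Benzel.Centre
import Pool.Agent.Helper64K9.Benzel.Two

/-!
# Benzels: the main theorem (MP_59b97c_co)
-/

set_option autoImplicit false

namespace Helper64K9.Benzel

theorem box_aux {A p : ℤ} : ∀ (n : ℕ) (b r hi : ℤ), Hyp A p b r n hi →
    2 * r ≤ (n : ℤ) * (n + 1) → Tileable (reg A (Out A p (b - 1) hi)) →
    Tileable (reg A (Box A p)) := by
  have fin : ∀ (n : ℕ) (b r hi : ℤ), Hyp' A p b r n hi →
      Tileable (reg A (Out A p (b - 1) hi)) → Tileable (reg A (Box A p)) := by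
    intro n b r hi H hT
    refine tileable_or hT (inn_tileable H) ?_ ?_
    · intro X Y Z _ _ q1 q2
      exact q2.2 q1.2
    · intro X Y Z _ _
      constructor
      · intro q
        by_cases h : (hi < Y - Z ∧ Z < b - 1) ∨ (hi < Z - X ∧ X < b - 1) ∨
            (hi < X - Y ∧ Y < b - 1)
        · exact Or.inl ⟨q, h⟩
        · exact Or.inr ⟨q, h⟩
      · rintro (q | q)
        · exact q.1
        · exact q.1
  intro n
  induction n with
  | zero =>
    intro b r hi H h2 hT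
    refine fin 0 b r hi ⟨H, ?_⟩ hT
    right
    obtain ⟨h1, h3, h4, h5⟩ := H
    have h6 : 2 * r ≤ 0 := by simpa using h2
    refine ⟨by omega, by norm_num⟩
  | succ n ih =>
    intro b r hi H h2 hT
    by_cases hr : r < n + 1
    · exact fin (n + 1) b r hi ⟨H, Or.inl (by push_cast; exact hr)⟩ hT
    · have hT' := layer_step H (by push_cast; omega) hT
      obtain ⟨h1, h3, h4, h5⟩ := H
      push_cast at *
      refine ih (b + 1) (r - (n + 1)) (3 * r) ⟨by omega, by omega, by omega, ?_⟩ ?_ ?_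
      · left
        rcases h5 with ⟨h5, h6, h7⟩ | ⟨h5, h6, h7⟩ <;> refine ⟨?_, ?_, ?_⟩ <;> omega
      · nlinarith
      · rw [show b + 1 - 1 = b by ring]
        exact hT'

theorem benzel_eq {a b : ℤ} {Q : ℤ → ℤ → ℤ → Prop}
    (h : ∀ X Y Z, X + Y + Z = 3 * (a - 1) → (Q X Y Z ↔
      (0 ≤ X ∧ X ≤ a + b - 2) ∧ (0 ≤ Y ∧ Y ≤ a + b - 2) ∧ 0 ≤ Z ∧ Z ≤ a + b - 2)) :
    benzel a b = reg (a - 1) Q := by
  ext ⟨i, j, k⟩
  simp only [benzel, reg, Set.mem_ofPred_eq, IsCell]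
  constructor
  · rintro ⟨hc, h1, h2, h3⟩
    exact ⟨hc, (h _ _ _ (by omega)).2 (by omega)⟩
  · rintro ⟨hc, hq⟩
    have := (h _ _ _ (by omega)).1 hq
    exact ⟨hc, by omega, by omega, by omega⟩

theorem case_zero {a b : ℤ} (ha : 2 ≤ a) (hab : a ≤ b) (hb : b ≤ 2 * a) (h3 : (a + b) % 3 = 0)
    (hI : 0 ≤ 3 * (b - a) ^ 2 - a - b) : Tileable (benzel a b) := by
  obtain ⟨p, hp⟩ : ∃ p, 2 * a - b = 3 * p := ⟨(2 * a - b) / 3, by omega⟩
  have hne : a ≠ b := by
    rintro rfl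
    simp at hI
    omega
  obtain ⟨n, hn⟩ : ∃ n : ℕ, (n : ℤ) = b - a - 1 := ⟨(b - a - 1).toNat, by omega⟩
  rw [benzel_eq (Q := Box (a - 1) p)]
  · refine box_aux n (3 * p) p (3 * (a - 1) + 3 * p + 3) ⟨by omega, by omega, by omega,
      Or.inr ⟨rfl, rfl, rfl⟩⟩ ?_ ?_
    · rw [hn]
      nlinarith
    · apply tileable_empty_reg
      intro X Y Z _ _ hq
      unfold Out Box at hq
      omega
  · intro X Y Z _
    unfold Box
    constructor
    · intro h
      omega
    · intro h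
      omega

theorem case_one {a b : ℤ} (h3 : (a + b) % 3 = 1) : Tileable (benzel a b) := by
  rw [benzel_eq (Q := fun X Y Z =>
    (0 ≤ X ∧ X ≤ a + b - 2) ∧ (0 ≤ Y ∧ Y ≤ a + b - 2) ∧ 0 ≤ Z ∧ Z ≤ a + b - 2)
    (fun _ _ _ _ => Iff.rfl)]
  apply tileable_stone 0
  intro X Y Z hs hm hf hg hq
  rcases hq with hq | hq | hq <;> refine ⟨?_, ?_, ?_⟩ <;> omega

theorem case_two {a b : ℤ} (hab : a ≤ b) (hb : b ≤ 2 * a) (h3 : (a + b) % 3 = 2) :
    Tileable (benzel a b) := by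
  obtain ⟨p, hp⟩ : ∃ p, 2 * a - b - 1 = 3 * p := ⟨(2 * a - b - 1) / 3, by omega⟩
  rw [benzel_eq (Q := Box2 p (b - a))]
  · rw [show a - 1 = 3 * p + (b - a) by omega]
    exact box2_tileable (by omega) (by omega)
  · intro X Y Z _
    unfold Box2
    constructor
    · intro h
      omega
    · intro h
      omega

/-- Exchange of the first two coordinates. -/
def swp (c : Pt) : Pt := (c.2.1, c.1, c.2.2)

theorem swp_swp (c : Pt) : swp (swp c) = c := rfl

theorem isTile_swp {T : Set Pt} (h : IsTile T) : IsTile (swp '' T) := by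
  rcases h with ⟨⟨t1, t2, t3⟩, ht, rfl⟩ | ⟨⟨c1, c2, c3⟩, hc, v, hv, rfl⟩
  · left
    refine ⟨(t2, t1, t3), by simp only at ht ⊢; omega, ?_⟩
    ext ⟨x, y, z⟩
    simp only [rightStone, swp, Set.mem_image, Set.mem_insert_iff, Set.mem_singleton_iff,
      Prod.exists, Prod.mk_add_mk, Prod.mk.injEq]
    constructor
    · rintro ⟨a, b, c, h1, h2, h3, h4⟩
      omega
    · intro h
      exact ⟨y, x, z, by omega, rfl, rfl, rfl⟩
  · right
    rcases hv with rfl | rfl | rfl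
    · refine ⟨(c2, c1, c3), by simp only [IsCell] at hc ⊢; omega, (1, -1, 0), Or.inl rfl, ?_⟩
      ext ⟨x, y, z⟩
      simp only [bone, swp, Set.mem_image, Set.mem_insert_iff, Set.mem_singleton_iff,
        Prod.exists, Prod.mk_add_mk, Prod.mk_sub_mk, Prod.mk.injEq]
      constructor
      · rintro ⟨a, b, c, h1, h2, h3, h4⟩
        omega
      · intro h
        exact ⟨y, x, z, by omega, rfl, rfl, rfl⟩
    · refine ⟨(c2, c1, c3), by simp only [IsCell] at hc ⊢; omega, (-1, 0, 1),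
        Or.inr (Or.inr rfl), ?_⟩
      ext ⟨x, y, z⟩
      simp only [bone, swp, Set.mem_image, Set.mem_insert_iff, Set.mem_singleton_iff,
        Prod.exists, Prod.mk_add_mk, Prod.mk_sub_mk, Prod.mk.injEq]
      constructor
      · rintro ⟨a, b, c, h1, h2, h3, h4⟩
        omega
      · intro h
        exact ⟨y, x, z, by omega, rfl, rfl, rfl⟩
    · refine ⟨(c2, c1, c3), by simp only [IsCell] at hc ⊢; omega, (0, 1, -1),
        Or.inr (Or.inl rfl), ?_⟩
      ext ⟨x, y, z⟩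
      simp only [bone, swp, Set.mem_image, Set.mem_insert_iff, Set.mem_singleton_iff,
        Prod.exists, Prod.mk_add_mk, Prod.mk_sub_mk, Prod.mk.injEq]
      constructor
      · rintro ⟨a, b, c, h1, h2, h3, h4⟩
        omega
      · intro h
        exact ⟨y, x, z, by omega, rfl, rfl, rfl⟩

theorem swp_benzel {a b : ℤ} {c : Pt} (h : c ∈ benzel a b) : swp c ∈ benzel b a := by
  obtain ⟨i, j, k⟩ := c
  simp only [benzel, IsCell, Set.mem_ofPred_eq, swp] at h ⊢
  omega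

theorem tileable_swp {a b : ℤ} (h : Tileable (benzel a b)) : Tileable (benzel b a) := by
  obtain ⟨T, h⟩ := h
  refine ⟨(fun S => swp '' S) '' T, ⟨?_, ?_, ?_, ?_⟩⟩
  · rintro _ ⟨S, hS, rfl⟩
    exact isTile_swp (h.tile S hS)
  · rintro _ ⟨S, hS, rfl⟩ _ ⟨c, hc, rfl⟩
    exact swp_benzel (h.sub S hS hc)
  · intro c hc
    obtain ⟨S, hS, hcS⟩ := h.cover _ (swp_benzel hc)
    exact ⟨_, ⟨S, hS, rfl⟩, ⟨swp c, hcS, rfl⟩⟩
  · rintro _ ⟨S, hS, rfl⟩ _ ⟨S', hS', rfl⟩ hne
    have hne' : S ≠ S' := by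
      rintro rfl
      exact hne rfl
    have := h.disj S hS S' hS' hne'
    refine Set.disjoint_left.2 ?_
    rintro _ ⟨c, hc, rfl⟩ ⟨c', hc', he⟩
    have hcc : c' = c := by
      have := congrArg swp he
      simpa only [swp_swp] using this
    subst hcc
    exact Set.disjoint_left.1 this hc hc'

theorem main_le {a b : ℤ} (ha : 2 ≤ a) (hab : a ≤ b) (hb : b ≤ 2 * a) (hI : 0 ≤ clInv a b) :
    Tileable (benzel a b) := by
  have h3 : (a + b) % 3 = 0 ∨ (a + b) % 3 = 1 ∨ (a + b) % 3 = 2 := by omega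
  rcases h3 with h3 | h3 | h3
  · refine case_zero ha hab hb h3 ?_
    unfold clInv at hI
    rw [if_pos h3] at hI
    have h4 : (0 : ℚ) ≤ ((3 * (b - a) ^ 2 - a - b : ℤ) : ℚ) := by
      push_cast
      linarith
    exact_mod_cast h4
  · exact case_one h3
  · exact case_two hab hb h3

theorem clInv_comm (a b : ℤ) : clInv b a = clInv a b := by
  unfold clInv
  rw [add_comm b a]
  split_ifs <;> ring

theorem main {a b : ℤ} (ha : 2 ≤ a) (ha' : a ≤ 2 * b) (hb : 2 ≤ b) (hb' : b ≤ 2 * a)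
    (hI : 0 ≤ clInv a b) : Tileable (benzel a b) := by
  rcases le_total a b with h | h
  · exact main_le ha h hb' hI
  · exact tileable_swp (main_le hb h ha' (by rw [clInv_comm]; exact hI))

end Helper64K9.Benzel
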